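import Pool.Agent.Lib.MP_fee02f_an.RR.R01

/-!
Localised convolution (step 5 of RDPROOF.md): `LB.form` (scaling), `LB.coef` (the coefficients of
the regular representation on a ball), `loc_conv` (the localised convolution lemma).
-/

open scoped ENNReal

namespace RapidDecay

variable {Γ X : Type*} [Group Γ] [MulAction Γ X] {S : HullSpace Γ X} {R : ℝ} {C : ℝ≥0∞}

theorem LB.mono (h : LB S R C) {R' : ℝ} {C' : ℝ≥0∞} (hR : R' ≤ R) (hC : C ≤ C') :
    LB S R' C' := fun o f hf h1 =>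
  (h o f (fun g hg => (hf g hg).trans hR) h1).mono (fun _ _ => le_rfl) hC

theorem R04_half_sq (a : ℝ≥0∞) : (a ^ (1 / 2 : ℝ)) ^ 2 = a := by
  rw [← ENNReal.rpow_natCast, ← ENNReal.rpow_mul]; norm_num

theorem R04_cs {I : Type*} (x y : I → ℝ≥0∞) :
    (∑' i, x i * y i) ^ 2 ≤ (∑' i, x i ^ 2) * ∑' i, y i ^ 2 :=
  cs_sq _ _ _ fun _ => (mul_pow _ _ _).le

theorem LB.form (h : LB S R C) (o : X) (f : Γ → ℝ≥0∞) (hf : ∀ g, f g ≠ 0 → S.d (g • o) o ≤ R)
    (hfin : ∑' g, f g ^ 2 ≠ ∞) (φ ψ : Γ → ℝ≥0∞) :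
    (∑' x, ∑' y, φ x * ker f x y * ψ y) ^ 2
      ≤ C ^ 2 * (∑' g, f g ^ 2) * ((∑' x, φ x ^ 2) * ∑' y, ψ y ^ 2) := by
  set N := ∑' g, f g ^ 2 with hN
  by_cases h0 : N = 0
  · have hf0 : ∀ g, f g = 0 := fun g => by
      have := ENNReal.tsum_eq_zero.1 h0 g
      simpa using this
    simp [ker, hf0]
  set t : ℝ≥0∞ := N ^ (1 / 2 : ℝ) with ht
  have ht2 : t ^ 2 = N := R04_half_sq N
  have ht0 : t ≠ 0 := fun h => h0 (by rw [← ht2, h]; simp)
  have htop : t ≠ ∞ := fun h => hfin (by rw [← ht2, h]; simp)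
  have h1 := h o (fun g => t⁻¹ * f g) (fun g hg => hf g (right_ne_zero_of_mul hg)) (by
    simp only [mul_pow]
    rw [ENNReal.tsum_mul_left, ← hN, ← ht2, ← ENNReal.inv_pow]
    exact (ENNReal.inv_mul_cancel (pow_ne_zero _ ht0) (ENNReal.pow_ne_top htop)).le) φ ψ
  have e : ∀ x y, φ x * ker f x y * ψ y = t * (φ x * ker (fun g => t⁻¹ * f g) x y * ψ y) := by
    intro x y
    simp only [ker]
    calc φ x * f (x⁻¹ * y) * ψ y = (t * t⁻¹) * (φ x * f (x⁻¹ * y) * ψ y) := by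
          rw [ENNReal.mul_inv_cancel ht0 htop, one_mul]
      _ = _ := by ring
  simp only [e]
  simp only [ENNReal.tsum_mul_left]
  rw [mul_pow, ht2]
  calc N * (∑' x, ∑' y, φ x * ker (fun g => t⁻¹ * f g) x y * ψ y) ^ 2
      ≤ N * (C ^ 2 * ((∑' x, φ x ^ 2) * ∑' y, ψ y ^ 2)) := by gcongr
    _ = _ := by ring

theorem R04_alpha_le (u : Γ → ℝ≥0∞) (g : Γ) :
    (∑' a, u a * u (g * a)) ≤ ∑' a, u a ^ 2 := by
  have h := R04_cs u (fun a => u (g * a))
  have e : ∑' a, u (g * a) ^ 2 = ∑' a, u a ^ 2 := (Equiv.mulLeft g).tsum_eq (fun a => u a ^ 2)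
  rw [e, ← sq] at h
  exact (ENNReal.pow_le_pow_left_iff two_ne_zero).1 h

theorem R04_form (u : Γ → ℝ≥0∞) (f : Γ → ℝ≥0∞) :
    ∑' x, ∑' y, u x⁻¹ * ker f x y * u y⁻¹ = ∑' g, f g⁻¹ * ∑' a, u a * u (g * a) := by
  have e1 : ∀ x, ∑' y, u x⁻¹ * ker f x y * u y⁻¹ =
      ∑' g, u x⁻¹ * f g⁻¹ * u (g * x⁻¹) := by
    intro x
    rw [← (Equiv.mulLeft x).tsum_eq, ← (Equiv.inv Γ).tsum_eq]
    refine tsum_congr fun g => ?_
    simp [ker]
  simp only [e1]
  rw [ENNReal.tsum_comm]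
  refine tsum_congr fun g => ?_
  rw [← ENNReal.tsum_mul_left, ← (Equiv.inv Γ).tsum_eq]
  refine tsum_congr fun a => ?_
  simp only [Equiv.inv_apply, inv_inv]
  ring

open Classical in
theorem LB.coef (h : LB S R C) (o : X) (u : Γ → ℝ≥0∞) (hu : ∑' a, u a ^ 2 ≠ ∞) :
    ∑' g : Γ, (if S.d (g • o) o ≤ R then (∑' a, u a * u (g * a)) ^ 2 else 0)
      ≤ C ^ 2 * (∑' a, u a ^ 2) ^ 2 := by
  rw [ENNReal.tsum_eq_iSup_sum]
  refine iSup_le fun s => ?_
  rw [← Finset.sum_filter]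
  set s' := s.filter fun g => S.d (g • o) o ≤ R with hs'
  set α : Γ → ℝ≥0∞ := fun g => ∑' a, u a * u (g * a) with hα
  set f : Γ → ℝ≥0∞ := fun g => if g⁻¹ ∈ s' then α g⁻¹ else 0 with hfdef
  have hsum : ∑' g, f g ^ 2 = ∑ g ∈ s', α g ^ 2 := by
    rw [← (Equiv.inv Γ).tsum_eq]
    simp only [hfdef, Equiv.inv_apply, inv_inv]
    rw [tsum_eq_sum (s := s')]
    · refine Finset.sum_congr rfl fun g hg => ?_
      rw [if_pos hg]
    · intro g hg
      rw [if_neg hg]; simp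
  have hfin : ∑' g, f g ^ 2 ≠ ∞ := by
    rw [hsum]
    refine ENNReal.sum_ne_top.2 fun g _ => ?_
    exact ENNReal.pow_ne_top (ne_top_of_le_ne_top hu (R04_alpha_le u g))
  have hsupp : ∀ g, f g ≠ 0 → S.d (g • o) o ≤ R := by
    intro g hg
    have hm : g⁻¹ ∈ s' := by
      by_contra hc
      exact hg (by simp [hfdef, hc])
    have h2 : S.d (g⁻¹ • o) o ≤ R := (Finset.mem_filter.1 hm).2
    have h3 := S.d_smul g (g⁻¹ • o) o
    rw [smul_inv_smul] at h3
    rw [S.d_comm, h3]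
    exact h2
  have hform := h.form o f hsupp hfin (fun x => u x⁻¹) (fun x => u x⁻¹)
  rw [R04_form] at hform
  have e2 : ∑' g, f g⁻¹ * ∑' a, u a * u (g * a) = ∑ g ∈ s', α g ^ 2 := by
    rw [tsum_eq_sum (s := s')]
    · refine Finset.sum_congr rfl fun g hg => ?_
      simp only [hfdef, inv_inv, if_pos hg, sq, hα]
    · intro g hg
      simp [hfdef, hg]
  have e3 : ∑' x, u x⁻¹ ^ 2 = ∑' x, u x ^ 2 := (Equiv.inv Γ).tsum_eq (fun x => u x ^ 2)
  rw [e2, hsum, e3] at hform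
  set A := ∑ g ∈ s', α g ^ 2 with hA
  rw [hsum] at hfin
  by_cases hA0 : A = 0
  · rw [hA0]; exact bot_le
  rw [sq A, mul_comm (C ^ 2) A, mul_assoc, ← sq (∑' x, u x ^ 2)] at hform
  exact (ENNReal.mul_le_mul_iff_right hA0 hfin).1 hform

/-- the bound needs to be checked for functions with finite norms only -/
theorem R04_of_fin {Y : Type*} {F : Y → Y → ℝ≥0∞} {C : ℝ≥0∞}
    (h : ∀ φ ψ : Y → ℝ≥0∞, ∑' x, φ x ^ 2 ≠ ∞ → ∑' x, ψ x ^ 2 ≠ ∞ →
      (∑' x, ∑' y, φ x * F x y * ψ y) ^ 2 ≤ C ^ 2 * ((∑' x, φ x ^ 2) * ∑' y, ψ y ^ 2)) :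
    OpLe F C := by
  classical
  intro φ ψ
  by_cases h1 : ∑' x, φ x ^ 2 = 0
  · have h0 : ∀ x, φ x = 0 := fun x => by
      have := ENNReal.tsum_eq_zero.1 h1 x
      simpa using this
    simp [h0]
  by_cases h2 : ∑' x, ψ x ^ 2 = 0
  · have h0 : ∀ x, ψ x = 0 := fun x => by
      have := ENNReal.tsum_eq_zero.1 h2 x
      simpa using this
    simp [h0]
  by_cases hC : C = 0
  · have hF : ∀ x y, F x y = 0 := by
      intro x y
      have h3 := h (Pi.single x 1) (Pi.single y 1) (by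
        rw [tsum_eq_single x]
        · simp
        · intro b hb; simp [hb]) (by
        rw [tsum_eq_single y]
        · simp
        · intro b hb; simp [hb])
      rw [hC, tsum_eq_single x, tsum_eq_single y] at h3
      · simpa using h3
      · intro b hb; simp [hb]
      · intro b hb; simp [hb]
    simp [hF]
  by_cases h3 : ∑' x, φ x ^ 2 = ∞
  · rw [h3, ENNReal.top_mul h2, ENNReal.mul_top (pow_ne_zero _ hC)]
    exact le_top
  by_cases h4 : ∑' x, ψ x ^ 2 = ∞
  · rw [h4, ENNReal.mul_top h1, ENNReal.mul_top (pow_ne_zero _ hC)]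
    exact le_top
  exact h φ ψ h3 h4

open Classical in
theorem loc_conv (V : Set X) (Dm : ℝ) (hV : ∀ x ∈ V, ∀ y ∈ V, S.d x y ≤ Dm)
    (hC : LB S (2 * Dm) C) {B : Type*} (W : B → ℝ≥0∞) (e : B → Γ) (x : B → X) (M : ℝ≥0∞)
    (hM : ∑' g, (∑' p, if e p = g then W p else 0) ^ 2 ≤ M ^ 2) :
    OpLe (fun a b => ∑' p : B, if a * e p = b ∧ a • x p ∈ V then W p else 0) (C * M) := by
  refine R04_of_fin fun φ ψ hφ hψ => ?_
  rcases V.eq_empty_or_nonempty with rfl | ⟨q, hq⟩
  · simp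
  -- rewrite the form
  set Q : B → ℝ≥0∞ := fun p => ∑' a, if a • x p ∈ V then φ a * ψ (a * e p) else 0 with hQ
  have e1 : ∑' a, ∑' b, φ a * (∑' p : B, if a * e p = b ∧ a • x p ∈ V then W p else 0) * ψ b =
      ∑' p, W p * Q p := by
    have e2 : ∀ a b, φ a * (∑' p : B, if a * e p = b ∧ a • x p ∈ V then W p else 0) * ψ b =
        ∑' p, (if a * e p = b then (if a • x p ∈ V then W p * (φ a * ψ b) else 0) else 0) := by
      intro a b
      rw [← ENNReal.tsum_mul_left, ← ENNReal.tsum_mul_right]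
      refine tsum_congr fun p => ?_
      by_cases h1 : a * e p = b
      · by_cases h2 : a • x p ∈ V
        · simp only [h1, h2, and_self, if_true]; ring
        · simp [h1, h2]
      · simp [h1]
    simp only [e2]
    calc ∑' a, ∑' b, ∑' p, (if a * e p = b then
            (if a • x p ∈ V then W p * (φ a * ψ b) else 0) else 0)
        = ∑' a, ∑' p, ∑' b, (if a * e p = b then
            (if a • x p ∈ V then W p * (φ a * ψ b) else 0) else 0) :=
          tsum_congr fun a => ENNReal.tsum_comm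
      _ = ∑' a, ∑' p, (if a • x p ∈ V then W p * (φ a * ψ (a * e p)) else 0) := by
          refine tsum_congr fun a => tsum_congr fun p => ?_
          rw [tsum_eq_single (a * e p)]
          · simp
          · intro b hb
            rw [if_neg (Ne.symm hb)]
      _ = ∑' p, ∑' a, (if a • x p ∈ V then W p * (φ a * ψ (a * e p)) else 0) :=
          ENNReal.tsum_comm
      _ = _ := by
          refine tsum_congr fun p => ?_
          rw [hQ, ← ENNReal.tsum_mul_left]
          refine tsum_congr fun a => ?_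
          split_ifs <;> simp
  rw [e1]
  set i : Γ → ℝ≥0∞ := fun g => if S.d (g • q) q ≤ 2 * Dm then 1 else 0 with hi
  set Z : Γ → ℝ≥0∞ := fun β => ∑' a, ∑' g, i g * (φ a * φ (g * a)) * (ψ (a * β) * ψ (g * a * β))
    with hZ
  have hQZ : ∀ p, Q p ^ 2 ≤ Z (e p) := by
    intro p
    rw [sq, hQ, hZ]
    simp only
    rw [← ENNReal.tsum_mul_right]
    refine ENNReal.tsum_le_tsum fun a => ?_
    rw [← ENNReal.tsum_mul_left, ← (Equiv.mulRight a).tsum_eq]
    refine ENNReal.tsum_le_tsum fun g => ?_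
    simp only [Equiv.coe_mulRight]
    by_cases h1 : a • x p ∈ V
    · by_cases h2 : (g * a) • x p ∈ V
      · have h3 : S.d (g • q) q ≤ 2 * Dm := by
          have h4 := S.d_tri (g • q) ((g * a) • x p) q
          have h5 : S.d (g • q) ((g * a) • x p) ≤ Dm := by
            rw [mul_smul, S.d_smul]; exact hV _ hq _ h1
          have h6 : S.d ((g * a) • x p) q ≤ Dm := hV _ h2 _ hq
          linarith
        simp only [hi, h1, h2, h3, if_true]
        exact le_of_eq (by ring)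
      · simp [h2]
    · simp [h1]
  -- Cauchy-Schwarz over the end points
  have e3 : ∑' p, W p * Q p = ∑' β, ∑' p, (if e p = β then W p * Q p else 0) := by
    rw [ENNReal.tsum_comm]
    refine tsum_congr fun p => ?_
    rw [tsum_eq_single (e p)]
    · simp
    · intro b hb; rw [if_neg (Ne.symm hb)]
  have h7 : ∀ β, (∑' p, (if e p = β then W p * Q p else 0)) ^ 2 ≤
      (∑' p, if e p = β then W p else 0) ^ 2 * Z β := by
    intro β
    calc (∑' p, (if e p = β then W p * Q p else 0)) ^ 2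
        ≤ (∑' p, if e p = β then W p else 0) * ∑' p, (if e p = β then W p * Q p ^ 2 else 0) := by
          refine cs_sq _ _ _ fun p => ?_
          split_ifs
          · exact le_of_eq (by ring)
          · simp
      _ ≤ (∑' p, if e p = β then W p else 0) * ∑' p, ((if e p = β then W p else 0) * Z β) := by
          gcongr with p
          split_ifs with h8
          · gcongr; rw [← h8]; exact hQZ p
          · simp
      _ = _ := by rw [ENNReal.tsum_mul_right]; ring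
  have h9 : (∑' p, W p * Q p) ^ 2 ≤ M ^ 2 * ∑' β, Z β := by
    rw [e3]
    refine (cs_sq _ _ _ h7).trans ?_
    gcongr
  -- the sum of `Z`
  have hZsum : ∑' β, Z β = ∑' g, (i g * ∑' a, φ a * φ (g * a)) * (i g * ∑' a, ψ a * ψ (g * a)) := by
    calc ∑' β, Z β = ∑' g, ∑' a, ∑' β, i g * (φ a * φ (g * a)) * (ψ (a * β) * ψ (g * a * β)) := by
          rw [hZ]
          simp only
          calc ∑' β, ∑' a, ∑' g, i g * (φ a * φ (g * a)) * (ψ (a * β) * ψ (g * a * β))
              = ∑' β, ∑' g, ∑' a, i g * (φ a * φ (g * a)) * (ψ (a * β) * ψ (g * a * β)) :=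
                tsum_congr fun β => ENNReal.tsum_comm
            _ = ∑' g, ∑' β, ∑' a, i g * (φ a * φ (g * a)) * (ψ (a * β) * ψ (g * a * β)) :=
                ENNReal.tsum_comm
            _ = _ := tsum_congr fun g => ENNReal.tsum_comm
      _ = ∑' g, ∑' a, i g * (φ a * φ (g * a)) * ∑' a, ψ a * ψ (g * a) := by
          refine tsum_congr fun g => tsum_congr fun a => ?_
          rw [ENNReal.tsum_mul_left]
          congr 1
          rw [← (Equiv.mulLeft a).tsum_eq (fun b => ψ b * ψ (g * b))]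
          simp only [Equiv.coe_mulLeft, mul_assoc]
      _ = _ := by
          refine tsum_congr fun g => ?_
          rw [ENNReal.tsum_mul_right, ENNReal.tsum_mul_left]
          have : i g * i g = i g := by simp only [hi]; split_ifs <;> simp
          calc i g * (∑' a, φ a * φ (g * a)) * ∑' a, ψ a * ψ (g * a)
              = (i g * i g) * (∑' a, φ a * φ (g * a)) * ∑' a, ψ a * ψ (g * a) := by rw [this]
            _ = _ := by ring
  have hcoef : ∀ u : Γ → ℝ≥0∞, ∑' a, u a ^ 2 ≠ ∞ →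
      ∑' g, (i g * ∑' a, u a * u (g * a)) ^ 2 ≤ C ^ 2 * (∑' a, u a ^ 2) ^ 2 := by
    intro u hu
    refine le_trans (le_of_eq ?_) (hC.coef q u hu)
    refine tsum_congr fun g => ?_
    simp only [hi]
    split_ifs <;> simp
  have h10 : ∑' β, Z β ≤ C ^ 2 * ((∑' a, φ a ^ 2) * ∑' a, ψ a ^ 2) := by
    refine (ENNReal.pow_le_pow_left_iff two_ne_zero).1 ?_
    rw [hZsum]
    refine (R04_cs _ _).trans ?_
    calc (∑' g, (i g * ∑' a, φ a * φ (g * a)) ^ 2) * ∑' g, (i g * ∑' a, ψ a * ψ (g * a)) ^ 2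
        ≤ (C ^ 2 * (∑' a, φ a ^ 2) ^ 2) * (C ^ 2 * (∑' a, ψ a ^ 2) ^ 2) := by
          gcongr
          · exact hcoef φ hφ
          · exact hcoef ψ hψ
      _ = _ := by ring
  calc (∑' p, W p * Q p) ^ 2 ≤ M ^ 2 * ∑' β, Z β := h9
    _ ≤ M ^ 2 * (C ^ 2 * ((∑' a, φ a ^ 2) * ∑' a, ψ a ^ 2)) := by gcongr
    _ = _ := by ring

end RapidDecay
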