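import Pool.Agent.Lib.MP_fee02f_an.Defs
import Pool.Agent.Lib.MP_fee02f_an.R11b
import Pool.Agent.Lib.MP_fee02f_an.RR.R04

/-!
From nonnegative kernels to the group algebra.

Let `F a = ‖f a‖`, `G a = ‖g a‖` (in `ℝ≥0∞`). `|(f * g) x| ≤ ∑_y F (x * y⁻¹) G y`. With `N = norm2 (f * g)` and
`φ x = |(f * g) x⁻¹|`, `ψ y = G y⁻¹` one has `N² ≤ ∑∑ φ x * ker F x y * ψ y`
(`x⁻¹ * y ↔ x * y⁻¹`, substitution `x ↦ x⁻¹`, `y ↦ y⁻¹`), and `LB.form` gives `N⁴ ≤ C² ‖f‖² N² ‖g‖²`.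
-/

open scoped ENNReal

namespace RapidDecay

variable {Γ X : Type*} [Group Γ] [MulAction Γ X]

theorem R12_tri {S : HullSpace Γ X} {R : ℝ} {C : ℝ≥0∞} (h : LB S R C) (o : X)
    (F G H : Γ → ℝ≥0∞) (hF : ∀ a, F a ≠ 0 → S.d (a • o) o ≤ R) (hfin : ∑' a, F a ^ 2 ≠ ∞) :
    (∑' a, ∑' b, F a * G b * H (a * b)) ^ 2
      ≤ C ^ 2 * ((∑' a, F a ^ 2) * (∑' a, G a ^ 2) * (∑' a, H a ^ 2)) := by
  have h1 := h.form o F hF hfin (fun x => H x⁻¹) (fun y => G y⁻¹)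
  have e1 : ∑' x, ∑' y, H x⁻¹ * ker F x y * G y⁻¹ = ∑' a, ∑' b, F a * G b * H (a * b) := by
    rw [← Equiv.tsum_eq (Equiv.inv Γ)]
    have e2 : ∀ x : Γ, ∑' y, H ((Equiv.inv Γ) x)⁻¹ * ker F ((Equiv.inv Γ) x) y * G y⁻¹ =
        ∑' y, H x * F (x * y⁻¹) * G y := by
      intro x
      rw [← Equiv.tsum_eq (Equiv.inv Γ)]
      refine tsum_congr fun y => ?_
      simp only [Equiv.inv_apply, inv_inv, ker]
    rw [tsum_congr e2, ENNReal.tsum_comm]
    have e3 : ∀ y : Γ, ∑' x, H x * F (x * y⁻¹) * G y = ∑' a, F a * G y * H (a * y) := by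
      intro y
      rw [← Equiv.tsum_eq (Equiv.mulRight y)]
      refine tsum_congr fun a => ?_
      simp only [Equiv.coe_mulRight, mul_inv_cancel_right]
      ring
    rw [tsum_congr e3, ENNReal.tsum_comm]
  have e4 : ∀ u : Γ → ℝ≥0∞, ∑' x, u x⁻¹ ^ 2 = ∑' x, u x ^ 2 := fun u =>
    Equiv.tsum_eq (Equiv.inv Γ) (fun x => u x ^ 2)
  rw [e1, e4 H, e4 G] at h1
  refine h1.trans (le_of_eq ?_)
  ring

theorem conv_le (S : HullSpace Γ X) (o : X) (R C : ℝ) (hC0 : 0 ≤ C)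
    (h : LB S R (ENNReal.ofReal C)) (f g : MonoidAlgebra ℂ Γ)
    (hf : ∀ a ∈ f.coeff.support, S.d (a • o) o ≤ R) :
    norm2 (f * g) ≤ C * norm2 f * norm2 g := by
  classical
  have hone : ∀ u : Γ →₀ ℂ, ∑' a, ENNReal.ofReal ‖u a‖ ^ 2 =
      ENNReal.ofReal (u.sum fun _ z => ‖z‖ ^ 2) := by
    intro u
    have := R11b_finsupp u (fun _ => 1) (fun _ => zero_le_one)
    simp only [ENNReal.ofReal_one, one_mul] at this
    exact this
  have hnn : ∀ u : Γ →₀ ℂ, 0 ≤ u.sum fun _ z => ‖z‖ ^ 2 := fun u =>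
    Finset.sum_nonneg fun _ _ => by positivity
  set F : Γ → ℝ≥0∞ := fun a => ENNReal.ofReal ‖f.coeff a‖ with hFdef
  set G : Γ → ℝ≥0∞ := fun a => ENNReal.ofReal ‖g.coeff a‖ with hGdef
  set H : Γ → ℝ≥0∞ := fun a => ENNReal.ofReal ‖(f * g).coeff a‖ with hHdef
  have hH : ∀ c, H c ≤ ∑' a, F a * G (a⁻¹ * c) := by
    intro x
    simp only [hHdef, hFdef, hGdef]
    rw [MonoidAlgebra.coeff_mul_apply_left, Finsupp.sum]
    refine le_trans (ENNReal.ofReal_le_ofReal (norm_sum_le _ _)) ?_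
    rw [ENNReal.ofReal_sum_of_nonneg (fun _ _ => norm_nonneg _)]
    refine le_trans (le_of_eq ?_) (ENNReal.sum_le_tsum f.coeff.support)
    refine Finset.sum_congr rfl fun a _ => ?_
    rw [norm_mul, ENNReal.ofReal_mul (norm_nonneg _)]
  have h1 : ∑' a, H a ^ 2 ≤ ∑' a, ∑' b, F a * G b * H (a * b) := by
    calc ∑' a, H a ^ 2 ≤ ∑' x, ∑' a, F a * G (a⁻¹ * x) * H x := by
          refine ENNReal.tsum_le_tsum fun x => ?_
          rw [ENNReal.tsum_mul_right, sq]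
          gcongr
          exact hH x
      _ = ∑' a, ∑' x, F a * G (a⁻¹ * x) * H x := ENNReal.tsum_comm
      _ = _ := by
          refine tsum_congr fun a => ?_
          rw [← Equiv.tsum_eq (Equiv.mulLeft a)]
          refine tsum_congr fun b => ?_
          simp only [Equiv.coe_mulLeft, inv_mul_cancel_left]
  have h2 := R12_tri h o F G H (fun a ha => by
    refine hf a ?_
    rw [Finsupp.mem_support_iff]
    intro h0
    apply ha
    simp only [hFdef]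
    rw [h0, norm_zero, ENNReal.ofReal_zero]) (by
      simp only [hFdef]
      rw [hone]
      exact ENNReal.ofReal_ne_top)
  have h3 : (∑' a, H a ^ 2) ^ 2 ≤ ENNReal.ofReal C ^ 2 *
      ((∑' a, F a ^ 2) * (∑' a, G a ^ 2) * (∑' a, H a ^ 2)) :=
    (pow_le_pow_left' h1 2).trans h2
  simp only [hFdef, hGdef, hHdef] at h3
  rw [hone, hone, hone] at h3
  set nf : ℝ := f.coeff.sum fun _ z => ‖z‖ ^ 2 with hnf
  set ng : ℝ := g.coeff.sum fun _ z => ‖z‖ ^ 2 with hng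
  set nh : ℝ := (f * g).coeff.sum fun _ z => ‖z‖ ^ 2 with hnh
  have nf0 : 0 ≤ nf := hnn _
  have ng0 : 0 ≤ ng := hnn _
  have nh0 : 0 ≤ nh := hnn _
  rw [← ENNReal.ofReal_pow nh0, ← ENNReal.ofReal_pow hC0, ← ENNReal.ofReal_mul nf0,
    ← ENNReal.ofReal_mul (mul_nonneg nf0 ng0), ← ENNReal.ofReal_mul (by positivity),
    ENNReal.ofReal_le_ofReal_iff (by positivity)] at h3
  have h4 : nh ≤ C ^ 2 * (nf * ng) := by
    rcases nh0.eq_or_lt with h0 | h0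
    · rw [← h0]
      positivity
    · have h5 : nh * nh ≤ (C ^ 2 * (nf * ng)) * nh := by
        calc nh * nh = nh ^ 2 := by ring
          _ ≤ _ := h3
          _ = _ := by ring
      exact le_of_mul_le_mul_right h5 h0
  unfold norm2
  rw [← hnf, ← hng, ← hnh]
  calc Real.sqrt nh ≤ Real.sqrt (C ^ 2 * (nf * ng)) := Real.sqrt_le_sqrt h4
    _ = C * Real.sqrt nf * Real.sqrt ng := by
        rw [Real.sqrt_mul (by positivity), Real.sqrt_sq hC0, Real.sqrt_mul nf0, mul_assoc]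

end RapidDecay
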