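import Pool.Agent.Lib.MP_fee02f_an.RR.R11
import Pool.Agent.Lib.MP_fee02f_an.RR.R12

/-!
Property (RD).

Write `f = ∑ n, f_n` (finite sum), `f_n` the restriction of `f` to `n ≤ ℓ < n + 1`, `ℓ g = d (g • o) o`.
`norm2 (f * g) ≤ ∑ n, norm2 (f_n * g) ≤ ∑ n, K (n + 1) ^ D * norm2 f_n * norm2 g` (`conv_le`, `R = n + 1`,
triangle inequality for `norm2`), and by Cauchy-Schwarz the sum is at most
`K (∑ (n + 1)^(-2))^(1/2) (∑ (n + 1)^(2 D + 2) norm2 f_n ^ 2)^(1/2) ≤ C * sobolev ℓ (D + 1) f`.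
-/

open scoped ENNReal

namespace RapidDecay

variable {Γ X : Type*} [Group Γ] [MulAction Γ X]

theorem isLength_d (S : HullSpace Γ X) (o : X) : IsLength (fun g : Γ => S.d (g • o) o) := by
  refine ⟨fun g => S.d_nonneg _ _, fun g => ?_, fun g h => ?_⟩
  · rw [← S.d_smul g, smul_inv_smul, S.d_comm]
  · refine (S.d_tri _ (g • o) _).trans ?_
    rw [mul_smul, S.d_smul, add_comm]

/-- THE CORE THEOREM: uniformly discrete groups acting on hull spaces have property (RD) -/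
theorem rd_of_hullSpace (S : HullSpace Γ X) (hU : UDisc' S) (o : X) :
    RDWith (fun g : Γ => S.d (g • o) o) := by
  classical
  obtain ⟨E, D, hE, hD, hpoly⟩ := poly S hU
  set ℓ : Γ → ℝ := fun g => S.d (g • o) o with hℓdef
  have hℓ : ∀ g, 0 ≤ ℓ g := fun g => S.d_nonneg _ _
  set K : ℝ≥0∞ := (1 : ℝ≥0∞) ^ 2 * (2 * (∑' k : ℕ, (ENNReal.ofReal (1 / ((k : ℝ) + 1))) ^ 2) *
      (ENNReal.ofReal (E * 2 ^ D)) ^ 2) with hK
  have hKtop : K ≠ ∞ := by
    refine ENNReal.mul_ne_top (ENNReal.pow_ne_top ENNReal.one_ne_top) (ENNReal.mul_ne_top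
      (ENNReal.mul_ne_top (by norm_num) R11b_Z) (ENNReal.pow_ne_top ENNReal.ofReal_ne_top))
  refine ⟨Real.sqrt K.toReal, D + 1, by linarith, fun f g => ?_⟩
  have hone : ∀ u : Γ →₀ ℂ, ∑' a, ENNReal.ofReal ‖u a‖ ^ 2 =
      ENNReal.ofReal (u.sum fun _ z => ‖z‖ ^ 2) := by
    intro u
    have := R11b_finsupp u (fun _ => 1) (fun _ => zero_le_one)
    simp only [ENNReal.ofReal_one, one_mul] at this
    exact this
  have hmain := R11b_main ℓ hℓ D E hD hE 1 (fun k F G H hF nF nG nH => by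
    have h1 := R12_tri (hpoly ((k : ℝ) + 1) (by linarith [Nat.cast_nonneg (α := ℝ) k])) o F G H
      hF nF
    refine h1.trans ?_
    refine mul_le_mul' (pow_le_pow_left' ?_ 2) le_rfl
    rw [one_mul]
    refine ENNReal.ofReal_le_ofReal (mul_le_mul_of_nonneg_left ?_ hE)
    exact Real.rpow_le_rpow (by positivity) (by linarith) hD)
    (fun a => ENNReal.ofReal ‖f.coeff a‖) (fun a => ENNReal.ofReal ‖g.coeff a‖)
    (fun a => ENNReal.ofReal ‖(f * g).coeff a‖) (fun x => by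
      rw [MonoidAlgebra.coeff_mul_apply_left, Finsupp.sum]
      refine le_trans (ENNReal.ofReal_le_ofReal (norm_sum_le _ _)) ?_
      rw [ENNReal.ofReal_sum_of_nonneg (fun _ _ => norm_nonneg _)]
      refine le_trans (le_of_eq ?_) (ENNReal.sum_le_tsum f.coeff.support)
      refine Finset.sum_congr rfl fun a _ => ?_
      rw [norm_mul, ENNReal.ofReal_mul (norm_nonneg _)])
    (by rw [hone]; exact ENNReal.ofReal_ne_top) (by rw [hone]; exact ENNReal.ofReal_ne_top)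
    (by rw [hone]; exact ENNReal.ofReal_ne_top)
  rw [hone, hone, R11b_finsupp f.coeff (fun a => (1 + ℓ a) ^ (D + 1))
    (fun a => Real.rpow_nonneg (by linarith [hℓ a]) _), ← hK] at hmain
  have hnn : ∀ u : Γ →₀ ℂ, 0 ≤ u.sum fun _ z => ‖z‖ ^ 2 := fun u =>
    Finset.sum_nonneg fun _ _ => by positivity
  have hs : 0 ≤ f.coeff.sum fun a z => ((1 + ℓ a) ^ (D + 1) * ‖z‖) ^ 2 :=
    Finset.sum_nonneg fun _ _ => by positivity
  have hreal : ((f * g).coeff.sum fun _ z => ‖z‖ ^ 2) ≤ K.toReal *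
      ((f.coeff.sum fun a z => ((1 + ℓ a) ^ (D + 1) * ‖z‖) ^ 2) *
        (g.coeff.sum fun _ z => ‖z‖ ^ 2)) := by
    clear_value K
    have h1 := ENNReal.toReal_mono (ENNReal.mul_ne_top hKtop
      (ENNReal.mul_ne_top ENNReal.ofReal_ne_top ENNReal.ofReal_ne_top)) hmain
    rw [ENNReal.toReal_mul, ENNReal.toReal_mul, ENNReal.toReal_ofReal (hnn _),
      ENNReal.toReal_ofReal (hnn _), ENNReal.toReal_ofReal hs] at h1
    exact h1
  unfold norm2 sobolev
  rw [← Real.sqrt_mul ENNReal.toReal_nonneg, ← Real.sqrt_mul (mul_nonneg ENNReal.toReal_nonneg hs)]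
  apply Real.sqrt_le_sqrt
  rw [mul_assoc]
  exact hreal

end RapidDecay
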