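import Mathlib

/-!
Property (RD) for uniformly discrete groups acting on hull spaces (MP_fee02f_an): definitions of the
combinatorial part (proof: RDPROOF.md and THMR.md).
-/

open scoped ENNReal

namespace RapidDecay

/-- A `Γ`-space with hulls and covers: `d` is a distance (possibly `d x x > 0`), `hl u I` is a point
(centre) which represents the hull of the points `u i`, `i ∈ I`, and `v R u I` is the size of the hull,
normalised at the scale `R`. -/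
structure HullSpace (Γ X : Type*) [Group Γ] [MulAction Γ X] where
  C : ℝ
  one_le : 1 ≤ C
  d : X → X → ℝ
  d_nonneg : ∀ x y, 0 ≤ d x y
  d_comm : ∀ x y, d x y = d y x
  d_tri : ∀ x y z, d x z ≤ d x y + d y z
  d_smul : ∀ (g : Γ) (x y : X), d (g • x) (g • y) = d x y
  hl : (ℕ → X) → Finset ℕ → X
  hl_congr : ∀ (u v : ℕ → X) (I : Finset ℕ), I.Nonempty → (∀ i ∈ I, u i = v i) → hl u I = hl v I
  hl_smul : ∀ (g : Γ) (u : ℕ → X) (I : Finset ℕ), I.Nonempty →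
    hl (fun i => g • u i) I = g • hl u I
  v : ℝ → (ℕ → X) → Finset ℕ → ℝ
  mono : ∀ (R : ℝ) (u : ℕ → X) (I I' : Finset ℕ), I'.Nonempty → I' ⊆ I → v R u I' ≤ v R u I
  bdd : ∀ R : ℝ, 1 ≤ R → ∀ z : X, ∃ a : ℝ, ∀ (u : ℕ → X) (I : Finset ℕ), I.Nonempty →
    (∀ i ∈ I, d (u i) z ≤ C * R) → |v R u I - a| ≤ 1
  close : ∀ θ : ℝ, 0 < θ → ∃ η K : ℝ, 0 < η ∧ ∀ R : ℝ, 1 ≤ R → ∀ (u : ℕ → X) (I I' : Finset ℕ)
    (z : X), I'.Nonempty → I' ⊆ I → (∀ i ∈ I, d (u i) z ≤ C * R) → v R u I - v R u I' ≤ η →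
    d (hl u I') (hl u I) ≤ θ * R + K
  μ : ℕ
  cov : ∀ R : ℝ, 1 ≤ R → ∃ 𝒱 : Set (Set X), (∀ V ∈ 𝒱, ∀ x ∈ V, ∀ y ∈ V, d x y ≤ C * R) ∧
    (∀ x y z : X, d x y ≤ R → d y z ≤ R → ∃ V ∈ 𝒱, x ∈ V ∧ y ∈ V ∧ z ∈ V) ∧
    ∀ x, {V ∈ 𝒱 | x ∈ V}.encard ≤ μ

/-- uniform discreteness -/
def UDisc' {Γ X : Type*} [Group Γ] [MulAction Γ X] (S : HullSpace Γ X) : Prop :=
  ∀ R : ℝ, ∃ b : ℕ, ∀ x : X, {g : Γ | S.d (g • x) x ≤ R}.encard ≤ b

section Op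

variable {Y : Type*}

/-- the operator with kernel `F` has norm at most `C` -/
def OpLe (F : Y → Y → ℝ≥0∞) (C : ℝ≥0∞) : Prop :=
  ∀ φ ψ : Y → ℝ≥0∞, (∑' x, ∑' y, φ x * F x y * ψ y) ^ 2
    ≤ C ^ 2 * ((∑' x, φ x ^ 2) * ∑' y, ψ y ^ 2)

open Classical in
/-- iterated kernels -/
noncomputable def KK (F : Y → Y → ℝ≥0∞) : ℕ → Y → Y → ℝ≥0∞
  | 0 => fun x z => if x = z then 1 else 0
  | n + 1 => fun x z => ∑' y, F x y * KK F n y z

/-- the vertices of the path `x, b 0, b 1, ...` (and `x` beyond its end) -/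
def pth {n : ℕ} (x : Y) (b : Fin n → Y) (i : ℕ) : Y :=
  if h : 1 ≤ i ∧ i ≤ n then b ⟨i - 1, by omega⟩ else x

/-- weight of a path -/
noncomputable def sw (F : Y → Y → ℝ≥0∞) {n : ℕ} (x : Y) (b : Fin n → Y) : ℝ≥0∞ :=
  ∏ i ∈ Finset.range n, F (pth x b i) (pth x b (i + 1))

end Op

section Grp

variable {Γ X : Type*} [Group Γ] [MulAction Γ X]

/-- the invariant kernel of the convolution by `f` -/
def ker (f : Γ → ℝ≥0∞) : Γ → Γ → ℝ≥0∞ := fun u v => f (u⁻¹ * v)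

/-- rapid decay bound at scale `R`, for all base points -/
def LB (S : HullSpace Γ X) (R : ℝ) (C : ℝ≥0∞) : Prop :=
  ∀ (o : X) (f : Γ → ℝ≥0∞), (∀ g, f g ≠ 0 → S.d (g • o) o ≤ R) → ∑' g, f g ^ 2 ≤ 1 →
    OpLe (ker f) C

end Grp

end RapidDecay
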