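import Pool.Agent.Lib.MP_fee02f_an.RR.Defs
import Pool.Agent.Lib.MP_fee02f_an.R4

/-!
Sums of extended nonnegative reals and operator norms.

`cs_sq`: `t i ≤ √(x i) √(y i)` and `R4_cs'`. `row`: put `h x = ∑' y, F x y * ψ y`; test with
`φ = h` on a finite set (if some `h x = ∞`, test with the indicator of `x`). `OpLe.sInf`: for finite
right hand sides take the infimum over `C` (cf. `Bd.sInf` in `R2.lean`); if
`(∑ φ²)(∑ ψ²) = ∞` or `0` argue directly.
-/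

open scoped ENNReal

namespace RapidDecay

theorem cs_sq {I : Type*} (t x y : I → ℝ≥0∞) (h : ∀ i, t i ^ 2 ≤ x i * y i) :
    (∑' i, t i) ^ 2 ≤ (∑' i, x i) * ∑' i, y i := by
  have h1 : ∀ i, t i ≤ x i ^ (1 / 2 : ℝ) * y i ^ (1 / 2 : ℝ) := by
    intro i
    rw [← R4_rt' (t i), ← ENNReal.mul_rpow_of_nonneg _ _ (by norm_num : (0 : ℝ) ≤ 1 / 2)]
    exact ENNReal.rpow_le_rpow (h i) (by norm_num)
  calc (∑' i, t i) ^ 2 ≤ (∑' i, x i ^ (1 / 2 : ℝ) * y i ^ (1 / 2 : ℝ)) ^ 2 := by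
        gcongr
        exact h1 _
    _ ≤ (∑' i, (x i ^ (1 / 2 : ℝ)) ^ 2) * ∑' i, (y i ^ (1 / 2 : ℝ)) ^ 2 := R4_cs' _ _
    _ = _ := by simp only [R4_rt]

theorem tsum_sq_le {I : Type*} (x : I → ℝ≥0∞) : ∑' i, x i ^ 2 ≤ (∑' i, x i) ^ 2 := by
  rw [sq (∑' i, x i), ← ENNReal.tsum_mul_right]
  refine ENNReal.tsum_le_tsum fun i => ?_
  rw [sq]
  gcongr
  exact ENNReal.le_tsum i

variable {Y : Type*} {F F' : Y → Y → ℝ≥0∞} {C C' : ℝ≥0∞}

theorem OpLe.mono (h : OpLe F C) (hF : ∀ x y, F' x y ≤ F x y) (hC : C ≤ C') : OpLe F' C' := by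
  intro φ ψ
  calc (∑' x, ∑' y, φ x * F' x y * ψ y) ^ 2 ≤ (∑' x, ∑' y, φ x * F x y * ψ y) ^ 2 := by
        gcongr
        exact hF _ _
    _ ≤ C ^ 2 * ((∑' x, φ x ^ 2) * ∑' y, ψ y ^ 2) := h φ ψ
    _ ≤ C' ^ 2 * ((∑' x, φ x ^ 2) * ∑' y, ψ y ^ 2) := by gcongr

theorem OpLe.flip (h : OpLe F C) : OpLe (fun x y => F y x) C := by
  intro φ ψ
  have h1 := h ψ φ
  rw [mul_comm (∑' x, ψ x ^ 2)] at h1
  refine le_trans (le_of_eq ?_) h1
  congr 1
  rw [ENNReal.tsum_comm]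
  refine tsum_congr fun x => tsum_congr fun y => ?_
  ring

theorem R01_phi (φ ψ : Y → ℝ≥0∞) (F : Y → Y → ℝ≥0∞) :
    ∑' x, ∑' y, φ x * F x y * ψ y = ∑' x, φ x * ∑' y, F x y * ψ y := by
  refine tsum_congr fun x => ?_
  rw [← ENNReal.tsum_mul_left]
  refine tsum_congr fun y => ?_
  rw [mul_assoc]

theorem OpLe.row (h : OpLe F C) (ψ : Y → ℝ≥0∞) :
    ∑' x, (∑' y, F x y * ψ y) ^ 2 ≤ C ^ 2 * ∑' y, ψ y ^ 2 := by
  classical
  set M : ℝ≥0∞ := C ^ 2 * ∑' y, ψ y ^ 2 with hM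
  by_cases hMt : M = ∞
  · rw [hMt]
    exact le_top
  set g : Y → ℝ≥0∞ := fun x => ∑' y, F x y * ψ y with hg
  have key : ∀ φ : Y → ℝ≥0∞, (∑' x, φ x * g x) ^ 2 ≤ M * ∑' x, φ x ^ 2 := by
    intro φ
    have h1 := h φ ψ
    rw [R01_phi] at h1
    refine h1.trans (le_of_eq ?_)
    rw [hM]
    ring
  have hs1 : ∀ x, g x ^ 2 ≤ M := by
    intro x
    have h1 := key (fun y => if y = x then 1 else 0)
    have h2 : ∑' y, (if y = x then (1 : ℝ≥0∞) else 0) * g y = g x := by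
      rw [tsum_eq_single x (fun y hy => by rw [if_neg hy, zero_mul]), if_pos rfl, one_mul]
    have h3 : ∑' y, (if y = x then (1 : ℝ≥0∞) else 0) ^ 2 = 1 := by
      rw [tsum_eq_single x (fun y hy => by rw [if_neg hy]; norm_num), if_pos rfl, one_pow]
    rw [h2, h3, mul_one] at h1
    exact h1
  rw [ENNReal.tsum_eq_iSup_sum]
  refine iSup_le fun s => ?_
  set S : ℝ≥0∞ := ∑ x ∈ s, g x ^ 2 with hS
  have hSt : S ≠ ∞ := by
    rw [hS]
    refine (ENNReal.sum_lt_top.2 fun x _ => ?_).ne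
    exact lt_of_le_of_lt (hs1 x) (lt_top_iff_ne_top.2 hMt)
  have h1 := key (fun x => if x ∈ s then g x else 0)
  have h2 : ∑' x, (if x ∈ s then g x else 0) * g x = S := by
    rw [tsum_eq_sum (s := s) (fun x hx => by rw [if_neg hx, zero_mul])]
    refine Finset.sum_congr rfl fun x hx => ?_
    rw [if_pos hx, sq]
  have h3 : ∑' x, (if x ∈ s then g x else 0) ^ 2 = S := by
    rw [tsum_eq_sum (s := s) (fun x hx => by rw [if_neg hx]; norm_num)]
    refine Finset.sum_congr rfl fun x hx => ?_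
    rw [if_pos hx]
  rw [h2, h3, sq] at h1
  by_cases hS0 : S = 0
  · rw [hS0]
    exact zero_le
  · exact (ENNReal.mul_le_mul_iff_left hS0 hSt).1 h1

theorem OpLe.col (h : OpLe F C) (φ : Y → ℝ≥0∞) :
    ∑' y, (∑' x, φ x * F x y) ^ 2 ≤ C ^ 2 * ∑' x, φ x ^ 2 := by
  have h1 := h.flip.row φ
  refine le_trans (le_of_eq ?_) h1
  refine tsum_congr fun y => ?_
  congr 1
  exact tsum_congr fun x => mul_comm _ _

theorem OpLe.sInf (h : ∃ C, C ≠ ∞ ∧ OpLe F C) : OpLe F (sInf {C | OpLe F C}) := by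
  classical
  obtain ⟨C₀, hC₀, h₀⟩ := h
  intro φ ψ
  set L : ℝ≥0∞ := ∑' x, ∑' y, φ x * F x y * ψ y with hL
  set K : ℝ≥0∞ := (∑' x, φ x ^ 2) * ∑' y, ψ y ^ 2 with hK
  set I : ℝ≥0∞ := InfSet.sInf {C | OpLe F C} with hI
  have hle : ∀ C, OpLe F C → L ^ 2 ≤ C ^ 2 * K := fun C hC => hC φ ψ
  by_cases hK0 : K = 0
  · have h1 := hle C₀ h₀
    rw [hK0, mul_zero] at h1
    exact h1.trans zero_le
  by_cases hKt : K = ∞
  · by_cases hI0 : I = 0
    · have hF : ∀ x y, F x y = 0 := by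
        intro x y
        have h1 : ∀ C, OpLe F C → F x y ≤ C := by
          intro C hC
          have h2 := hC (fun z => if z = x then 1 else 0) (fun z => if z = y then 1 else 0)
          have h3 : ∀ a : Y, ∑' z, (if z = a then (1 : ℝ≥0∞) else 0) ^ 2 = 1 := by
            intro a
            rw [tsum_eq_single a (fun z hz => by rw [if_neg hz]; norm_num), if_pos rfl, one_pow]
          rw [R01_phi, h3, h3, mul_one, mul_one,
            tsum_eq_single x (fun z hz => by rw [if_neg hz, zero_mul]), if_pos rfl, one_mul,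
            tsum_eq_single y (fun z hz => by rw [if_neg hz, mul_zero]), if_pos rfl, mul_one] at h2
          have h4 := ENNReal.rpow_le_rpow h2 (by norm_num : (0 : ℝ) ≤ 1 / 2)
          rwa [R4_rt', R4_rt'] at h4
        have h5 : F x y ≤ I := le_sInf fun C hC => h1 C hC
        rw [hI0] at h5
        exact le_antisymm h5 zero_le
      have hL0 : L = 0 := by
        rw [hL]
        simp [hF]
      rw [hL0]
      norm_num
    · rw [hKt, ENNReal.mul_top (pow_ne_zero 2 hI0)]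
      exact le_top
  · have hr0 : K ^ (1 / 2 : ℝ) ≠ 0 := by
      intro h1
      apply hK0
      rw [← R4_rt K, h1]
      norm_num
    have hrt : K ^ (1 / 2 : ℝ) ≠ ∞ := by
      intro h1
      apply hKt
      rw [← R4_rt K, h1]
      rfl
    have h1 : L / K ^ (1 / 2 : ℝ) ≤ I := by
      refine le_sInf fun C hC => ?_
      rw [ENNReal.div_le_iff hr0 hrt]
      have h2 := ENNReal.rpow_le_rpow (hle C hC) (by norm_num : (0 : ℝ) ≤ 1 / 2)
      rwa [R4_rt', ENNReal.mul_rpow_of_nonneg _ _ (by norm_num : (0 : ℝ) ≤ 1 / 2), R4_rt'] at h2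
    rw [ENNReal.div_le_iff hr0 hrt] at h1
    calc L ^ 2 ≤ (I * K ^ (1 / 2 : ℝ)) ^ 2 := by gcongr
      _ = I ^ 2 * K := by rw [mul_pow, R4_rt]

end RapidDecay
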