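import Pool.Agent.Lib.MP_fee02f_an.RR.R01

/-!
Iterated kernels. All by induction on the number of steps; `KK_pow`: induction on `J`,
`∑∑ ψ KK_{2n} ψ = ∑_y (∑_x ψ x KK_n x y)²` for symmetric `F` (`KK_add`, `KK_symm`), and
`(∑_y a y * ψ y)² ≤ (∑ a²)(∑ ψ²)`.
-/

open scoped ENNReal

namespace RapidDecay

variable {Y : Type*} {F F' : Y → Y → ℝ≥0∞} {C : ℝ≥0∞}

theorem R02_swap (a : Y → ℝ≥0∞) (G H : Y → Y → ℝ≥0∞) (z : Y) :
    ∑' x, a x * ∑' y, G x y * H y z = ∑' y, (∑' x, a x * G x y) * H y z := by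
  have h1 : ∀ x, a x * ∑' y, G x y * H y z = ∑' y, a x * G x y * H y z := by
    intro x
    rw [← ENNReal.tsum_mul_left]
    exact tsum_congr fun y => by ring
  rw [tsum_congr h1, ENNReal.tsum_comm]
  exact tsum_congr fun y => by rw [ENNReal.tsum_mul_right]

theorem R02_zero_left (G : Y → ℝ≥0∞) (x : Y) : ∑' y, KK F 0 x y * G y = G x := by
  classical
  rw [tsum_eq_single x]
  · simp [KK]
  · intro y hy
    simp [KK, Ne.symm hy]

theorem R02_zero_right (G : Y → ℝ≥0∞) (z : Y) : ∑' y, G y * KK F 0 y z = G z := by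
  classical
  rw [tsum_eq_single z]
  · simp [KK]
  · intro y hy
    simp [KK, hy]

theorem KK_add (m n : ℕ) (x z : Y) : KK F (m + n) x z = ∑' y, KK F m x y * KK F n y z := by
  induction m generalizing x with
  | zero =>
    rw [R02_zero_left (F := F) (fun y => KK F n y z) x, Nat.zero_add]
  | succ m ih =>
    have e : m + 1 + n = (m + n) + 1 := by omega
    rw [e]
    change ∑' y, F x y * KK F (m + n) y z = ∑' y, (∑' w, F x w * KK F m w y) * KK F n y z
    rw [← R02_swap (fun y => F x y) (fun w y => KK F m w y) (fun y z => KK F n y z) z]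
    exact tsum_congr fun y => by rw [ih]

theorem KK_one (x z : Y) : KK F 1 x z = F x z :=
  R02_zero_right (F := F) (fun y => F x y) z

theorem KK_symm (hF : ∀ x y, F x y = F y x) (n : ℕ) (x z : Y) : KK F n x z = KK F n z x := by
  induction n generalizing x z with
  | zero =>
    simp only [KK]
    by_cases h : x = z
    · subst h; rfl
    · rw [if_neg h, if_neg (Ne.symm h)]
  | succ n ih =>
    rw [KK_add n 1 z x]
    change ∑' y, F x y * KK F n y z = _
    exact tsum_congr fun y => by rw [KK_one, ih y z, hF x y, mul_comm]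

theorem KK_mono (h : ∀ x y, F' x y ≤ F x y) (n : ℕ) (x z : Y) : KK F' n x z ≤ KK F n x z := by
  induction n generalizing x with
  | zero => exact le_refl _
  | succ n ih =>
    change ∑' y, F' x y * KK F' n y z ≤ ∑' y, F x y * KK F n y z
    exact ENNReal.tsum_le_tsum fun y => mul_le_mul' (h x y) (ih y)

theorem KK_left (h : OpLe F C) (n : ℕ) (φ : Y → ℝ≥0∞) :
    ∑' z, (∑' x, φ x * KK F n x z) ^ 2 ≤ (C ^ n) ^ 2 * ∑' x, φ x ^ 2 := by
  induction n generalizing φ with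
  | zero =>
    simp only [pow_zero, one_pow, one_mul]
    refine le_of_eq (tsum_congr fun z => ?_)
    rw [R02_zero_right (F := F) φ z]
  | succ n ih =>
    have e : ∀ z, ∑' x, φ x * KK F (n + 1) x z
        = ∑' y, (∑' x, φ x * F x y) * KK F n y z := fun z =>
      R02_swap φ F (fun y z => KK F n y z) z
    calc ∑' z, (∑' x, φ x * KK F (n + 1) x z) ^ 2
        = ∑' z, (∑' y, (∑' x, φ x * F x y) * KK F n y z) ^ 2 :=
          tsum_congr fun z => by rw [e]
      _ ≤ (C ^ n) ^ 2 * ∑' y, (∑' x, φ x * F x y) ^ 2 := ih _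
      _ ≤ (C ^ n) ^ 2 * (C ^ 2 * ∑' x, φ x ^ 2) := by
          gcongr
          exact h.col φ
      _ = (C ^ (n + 1)) ^ 2 * ∑' x, φ x ^ 2 := by ring

theorem KK_right (h : OpLe F C) (n : ℕ) (ψ : Y → ℝ≥0∞) :
    ∑' x, (∑' z, KK F n x z * ψ z) ^ 2 ≤ (C ^ n) ^ 2 * ∑' z, ψ z ^ 2 := by
  induction n with
  | zero =>
    simp only [pow_zero, one_pow, one_mul]
    refine le_of_eq (tsum_congr fun x => ?_)
    rw [R02_zero_left (F := F) ψ x]
  | succ n ih =>
    have e : ∀ x, ∑' z, KK F (n + 1) x z * ψ z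
        = ∑' y, F x y * ∑' z, KK F n y z * ψ z := by
      intro x
      have h1 : ∀ z, KK F (n + 1) x z * ψ z = ∑' y, F x y * (KK F n y z * ψ z) := by
        intro z
        change (∑' y, F x y * KK F n y z) * ψ z = _
        rw [← ENNReal.tsum_mul_right]
        exact tsum_congr fun y => by ring
      rw [tsum_congr h1, ENNReal.tsum_comm]
      exact tsum_congr fun y => by rw [ENNReal.tsum_mul_left]
    calc ∑' x, (∑' z, KK F (n + 1) x z * ψ z) ^ 2
        = ∑' x, (∑' y, F x y * ∑' z, KK F n y z * ψ z) ^ 2 :=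
          tsum_congr fun x => by rw [e]
      _ ≤ C ^ 2 * ∑' y, (∑' z, KK F n y z * ψ z) ^ 2 := h.row _
      _ ≤ C ^ 2 * ((C ^ n) ^ 2 * ∑' z, ψ z ^ 2) := by gcongr
      _ = (C ^ (n + 1)) ^ 2 * ∑' z, ψ z ^ 2 := by ring

/-- the `ℓ²` norm of a row of the iterated kernel gains one factor -/
theorem KK_row (h : OpLe F C) (n : ℕ) (x : Y) :
    ∑' z, KK F (n + 1) x z ^ 2 ≤ (C ^ n) ^ 2 * ∑' y, F x y ^ 2 :=
  KK_left h n (fun y => F x y)

theorem R02_double (hF : ∀ x y, F x y = F y x) (ψ : Y → ℝ≥0∞) (n : ℕ) :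
    ∑' y, (∑' x, ψ x * KK F n x y) ^ 2 = ∑' x, ∑' y, ψ x * KK F (n + n) x y * ψ y := by
  have h1 : ∀ y, (∑' x, ψ x * KK F n x y) ^ 2
      = ∑' x, ∑' x', ψ x * KK F n x y * (KK F n y x' * ψ x') := by
    intro y
    rw [pow_two, ← ENNReal.tsum_mul_right]
    refine tsum_congr fun x => ?_
    rw [← ENNReal.tsum_mul_left]
    exact tsum_congr fun x' => by rw [KK_symm hF n y x', mul_comm (ψ x') _]
  rw [tsum_congr h1, ENNReal.tsum_comm]
  refine tsum_congr fun x => ?_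
  rw [ENNReal.tsum_comm]
  refine tsum_congr fun x' => ?_
  rw [KK_add n n x x', ← ENNReal.tsum_mul_left, ← ENNReal.tsum_mul_right]
  exact tsum_congr fun y => by ring

theorem KK_pow (hF : ∀ x y, F x y = F y x) (ψ : Y → ℝ≥0∞) (J : ℕ) :
    (∑' x, ∑' y, ψ x * F x y * ψ y) ^ (2 ^ J)
      ≤ (∑' x, ∑' y, ψ x * KK F (2 ^ J) x y * ψ y) * (∑' x, ψ x ^ 2) ^ (2 ^ J - 1) := by
  induction J with
  | zero =>
    simp only [pow_zero, pow_one, Nat.sub_self, mul_one, KK_one]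
    exact le_refl _
  | succ J ih =>
    have hS : (∑' x, ∑' y, ψ x * KK F (2 ^ J) x y * ψ y) ^ 2
        ≤ (∑' x, ∑' y, ψ x * KK F (2 ^ (J + 1)) x y * ψ y) * ∑' x, ψ x ^ 2 := by
      have e1 : ∑' x, ∑' y, ψ x * KK F (2 ^ J) x y * ψ y
          = ∑' y, (∑' x, ψ x * KK F (2 ^ J) x y) * ψ y := by
        rw [ENNReal.tsum_comm]
        exact tsum_congr fun y => by rw [ENNReal.tsum_mul_right]
      have e2 : 2 ^ (J + 1) = 2 ^ J + 2 ^ J := by rw [pow_succ]; ring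
      rw [e1, e2, ← R02_double hF ψ (2 ^ J)]
      exact R4_cs' _ _
    have e3 : (2 : ℕ) ^ (J + 1) - 1 = 1 + 2 * (2 ^ J - 1) := by
      have : 1 ≤ 2 ^ J := Nat.one_le_two_pow
      rw [pow_succ]; omega
    calc (∑' x, ∑' y, ψ x * F x y * ψ y) ^ (2 ^ (J + 1))
        = ((∑' x, ∑' y, ψ x * F x y * ψ y) ^ (2 ^ J)) ^ 2 := by
          rw [← pow_mul, ← pow_succ]
      _ ≤ ((∑' x, ∑' y, ψ x * KK F (2 ^ J) x y * ψ y)
            * (∑' x, ψ x ^ 2) ^ (2 ^ J - 1)) ^ 2 := by gcongr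
      _ = (∑' x, ∑' y, ψ x * KK F (2 ^ J) x y * ψ y) ^ 2
            * (∑' x, ψ x ^ 2) ^ (2 * (2 ^ J - 1)) := by
          rw [mul_pow, ← pow_mul, mul_comm (2 ^ J - 1) 2]
      _ ≤ ((∑' x, ∑' y, ψ x * KK F (2 ^ (J + 1)) x y * ψ y) * ∑' x, ψ x ^ 2)
            * (∑' x, ψ x ^ 2) ^ (2 * (2 ^ J - 1)) := by gcongr
      _ = _ := by rw [e3, pow_add, pow_one]; ring

end RapidDecay
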