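import Pool.Agent.Lib.MP_fee02f_an.RR.R02

/-!
Paths. `pth_append`, `sw_append`: cases on the index. `tsum_append`: the bijection
`(Fin m → Y) × (Fin n → Y) ≃ (Fin (m + n) → Y)` (`Fin.appendEquiv`) and `ENNReal.tsum_prod'`.
`KK_eq`: induction on `n` with `Fin (n + 1) → Y ≃ Y × (Fin n → Y)` (`Fin.consEquiv` or
`Fin.insertNthEquiv`).
-/

open scoped ENNReal

namespace RapidDecay

variable {Y : Type*} {F F' : Y → Y → ℝ≥0∞}

theorem pth_zero {n : ℕ} (x : Y) (b : Fin n → Y) : pth x b 0 = x := by
  simp [pth]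

theorem pth_append {m n : ℕ} (x : Y) (b : Fin m → Y) (c : Fin n → Y) (i : ℕ) (hi : i ≤ m + n) :
    pth x (Fin.append b c) i = if i ≤ m then pth x b i else pth (pth x b m) c (i - m) := by
  by_cases h0 : i = 0
  · subst h0
    simp [pth]
  · by_cases h1 : i ≤ m
    · rw [if_pos h1]
      unfold pth
      rw [dif_pos ⟨by omega, hi⟩, dif_pos ⟨by omega, h1⟩]
      have : (⟨i - 1, by omega⟩ : Fin (m + n)) = Fin.castAdd n ⟨i - 1, by omega⟩ := by
        ext
        simp
      rw [this, Fin.append_left]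
    · rw [if_neg h1]
      have h2 : pth (pth x b m) c (i - m) = c ⟨i - m - 1, by omega⟩ := by
        unfold pth
        rw [dif_pos ⟨by omega, by omega⟩]
      rw [h2]
      unfold pth
      rw [dif_pos ⟨by omega, hi⟩]
      have : (⟨i - 1, by omega⟩ : Fin (m + n)) = Fin.natAdd m ⟨i - m - 1, by omega⟩ := by
        ext
        simp
        omega
      rw [this, Fin.append_right]

theorem sw_append {m n : ℕ} (x : Y) (b : Fin m → Y) (c : Fin n → Y) :
    sw F x (Fin.append b c) = sw F x b * sw F (pth x b m) c := by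
  unfold sw
  rw [Finset.prod_range_add]
  congr 1
  · refine Finset.prod_congr rfl fun i hi => ?_
    have hi' := Finset.mem_range.mp hi
    rw [pth_append x b c i (by omega), pth_append x b c (i + 1) (by omega), if_pos (by omega),
      if_pos (by omega)]
  · refine Finset.prod_congr rfl fun i hi => ?_
    have hi' := Finset.mem_range.mp hi
    rw [pth_append x b c (m + i) (by omega), pth_append x b c (m + i + 1) (by omega),
      if_neg (show ¬ (m + i + 1 ≤ m) by omega)]
    have e1 : m + i + 1 - m = i + 1 := by omega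
    rw [e1]
    by_cases h : i = 0
    · subst h
      rw [if_pos (by omega), pth_zero]
      rfl
    · rw [if_neg (by omega)]
      have e2 : m + i - m = i := by omega
      rw [e2]

theorem sw_mono (h : ∀ x y, F' x y ≤ F x y) {n : ℕ} (x : Y) (b : Fin n → Y) :
    sw F' x b ≤ sw F x b :=
  Finset.prod_le_prod' fun _ _ => h _ _

theorem tsum_append {m n : ℕ} (g : (Fin (m + n) → Y) → ℝ≥0∞) :
    ∑' b, g b = ∑' b : Fin m → Y, ∑' c : Fin n → Y, g (Fin.append b c) := by
  rw [← (Fin.appendEquiv m n).tsum_eq (f := g)]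
  rw [ENNReal.tsum_prod']
  rfl

theorem R03_pth_cons {n : ℕ} (x y : Y) (c : Fin n → Y) (i : ℕ) (hi : i ≤ n) :
    pth x (Fin.cons y c : Fin (n + 1) → Y) (i + 1) = pth y c i := by
  by_cases h0 : i = 0
  · subst h0
    simp [pth]
  · unfold pth
    rw [dif_pos ⟨by omega, by omega⟩, dif_pos ⟨by omega, hi⟩]
    have : (⟨i + 1 - 1, by omega⟩ : Fin (n + 1)) = Fin.succ ⟨i - 1, by omega⟩ := by
      ext
      simp
      omega
    rw [this, Fin.cons_succ]

theorem R03_sw_cons {n : ℕ} (x y : Y) (c : Fin n → Y) :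
    sw F x (Fin.cons y c : Fin (n + 1) → Y) = F x y * sw F y c := by
  unfold sw
  rw [Finset.prod_range_succ', R03_pth_cons x y c 0 (by omega), pth_zero, pth_zero, mul_comm]
  congr 1
  refine Finset.prod_congr rfl fun i hi => ?_
  have hi' := Finset.mem_range.mp hi
  rw [R03_pth_cons x y c i (by omega), R03_pth_cons x y c (i + 1) (by omega)]

open Classical in
theorem KK_eq (n : ℕ) (x z : Y) :
    KK F n x z = ∑' b : Fin n → Y, if pth x b n = z then sw F x b else 0 := by
  induction n generalizing x with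
  | zero =>
    rw [tsum_fintype]
    simp [KK, pth, sw]
  | succ n ih =>
    rw [← (Fin.consEquiv (fun _ : Fin (n + 1) => Y)).tsum_eq, ENNReal.tsum_prod']
    change ∑' y, F x y * KK F n y z = _
    refine tsum_congr fun y => ?_
    rw [ih y, ← ENNReal.tsum_mul_left]
    refine tsum_congr fun c => ?_
    change _ = if pth x (Fin.cons y c : Fin (n + 1) → Y) (n + 1) = z
      then sw F x (Fin.cons y c : Fin (n + 1) → Y) else 0
    rw [R03_pth_cons x y c n le_rfl, R03_sw_cons]
    split_ifs <;> simp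

open Classical in
/-- if the weight of a path does not vanish, all steps have nonzero weight -/
theorem sw_ne_zero {n : ℕ} {x : Y} {b : Fin n → Y} (h : sw F x b ≠ 0) (i : ℕ) (hi : i < n) :
    F (pth x b i) (pth x b (i + 1)) ≠ 0 := by
  unfold sw at h
  exact (Finset.prod_ne_zero_iff.mp h) i (Finset.mem_range.mpr hi)

/-- the quadratic form of the iterated kernel as a sum over paths -/
theorem form_eq (n : ℕ) (φ ψ : Y → ℝ≥0∞) :
    ∑' x, ∑' y, φ x * KK F n x y * ψ y
      = ∑' x, ∑' b : Fin n → Y, φ x * sw F x b * ψ (pth x b n) := by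
  classical
  refine tsum_congr fun x => ?_
  have h1 : ∀ y, φ x * KK F n x y * ψ y
      = ∑' b : Fin n → Y, if pth x b n = y then φ x * sw F x b * ψ y else 0 := by
    intro y
    rw [KK_eq, ← ENNReal.tsum_mul_left, ← ENNReal.tsum_mul_right]
    refine tsum_congr fun b => ?_
    split_ifs <;> simp
  simp_rw [h1]
  rw [ENNReal.tsum_comm]
  refine tsum_congr fun b => ?_
  rw [tsum_eq_single (pth x b n)]
  · simp
  · intro y hy
    rw [if_neg (Ne.symm hy)]

section Grp

variable {Γ : Type*} [Group Γ] {f : Γ → ℝ≥0∞}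

theorem pth_smul {n : ℕ} (g x : Γ) (b : Fin n → Γ) (i : ℕ) :
    pth (g * x) (fun j => g * b j) i = g * pth x b i := by
  unfold pth
  split_ifs <;> rfl

theorem sw_smul {n : ℕ} (g x : Γ) (b : Fin n → Γ) :
    sw (ker f) (g * x) (fun j => g * b j) = sw (ker f) x b := by
  unfold sw
  refine Finset.prod_congr rfl fun i _ => ?_
  rw [pth_smul, pth_smul]
  unfold ker
  congr 1
  group

/-- sum over the translates of paths -/
theorem tsum_smul {n : ℕ} (g : Γ) (h : (Fin n → Γ) → ℝ≥0∞) :
    ∑' b, h b = ∑' b : Fin n → Γ, h (fun j => g * b j) := by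
  rw [← (Equiv.piCongrRight (fun _ : Fin n => Equiv.mulLeft g)).tsum_eq (f := h)]
  rfl

end Grp

end RapidDecay
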