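import Pool.Agent.Lib.MP_fee02f_an.RR.R01

/-!
Localisation (step 2).

`φ`, `ψ` violate the bound; both norms are finite and nonzero (if one is `0`, that function vanishes
and the form is `0`; if one is infinite and the other nonzero the right hand side is infinite, as
`C ≠ 0`; for `C = 0` use the indicators of two points with `ker f x y ≠ 0`). Normalise both to norm
one and put `χ = φ + ψ`: by symmetry the form at `χ` is at least twice the form at `(φ, ψ)`, hence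
`> 2 C ≥ (C / 2) ∑ χ²`. If `ker f x y ≠ 0` then `d (x • o) (y • o) ≤ R`, so `x • o`, `y • o` lie in a common
`V ∈ 𝒱` (take `z = x • o` in the covering property), and the form at `χ` is at most the sum over
`V ∈ 𝒱` of the forms at `χ 1_V`, while `∑_V ∑ (χ 1_V)² ≤ μ ∑ χ²`. So for some `V` the form at `χ 1_V` is
greater than `C / (2 μ) * ∑ (χ 1_V)²`.
-/

open scoped ENNReal

namespace RapidDecay

variable {Γ X : Type*} [Group Γ] [MulAction Γ X]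

theorem r05_add_sq (a b : ℝ≥0∞) : (a + b) ^ 2 ≤ 2 * (a ^ 2 + b ^ 2) := by
  induction a with
  | top => simp
  | coe a =>
    induction b with
    | top => simp
    | coe b =>
      norm_cast
      rw [← NNReal.coe_le_coe]
      push_cast
      nlinarith [sq_nonneg ((a : ℝ) - b)]

/-- a finite nonzero extended real has a square root -/
theorem r05_sqrt (A : ℝ≥0∞) (h0 : A ≠ 0) (h1 : A ≠ ∞) : ∃ p : ℝ≥0∞, p ≠ 0 ∧ p ≠ ∞ ∧ p ^ 2 = A := by
  refine ⟨A ^ (1 / 2 : ℝ), ?_, ?_, ?_⟩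
  · intro h
    rw [ENNReal.rpow_eq_zero_iff] at h
    rcases h with ⟨h, -⟩ | ⟨h, -⟩
    · exact h0 h
    · exact h1 h
  · exact ENNReal.rpow_ne_top_of_nonneg (by norm_num) h1
  · rw [← ENNReal.rpow_natCast, ← ENNReal.rpow_mul]
    norm_num

open Classical in
/-- the number of cells containing a point -/
theorem r05_count (𝒱 : Set (Set X)) (μ : ℕ) (x : X) (h2 : {V ∈ 𝒱 | x ∈ V}.encard ≤ μ) :
    ∑' V : 𝒱, (if x ∈ (V : Set X) then (1 : ℝ≥0∞) else 0) ≤ μ := by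
  have h : ∑' V : 𝒱, (if x ∈ (V : Set X) then (1 : ℝ≥0∞) else 0) =
      ∑' V : {V ∈ 𝒱 | x ∈ V}, (1 : ℝ≥0∞) := by
    rw [tsum_subtype 𝒱 (fun V => if x ∈ V then (1 : ℝ≥0∞) else 0),
      tsum_subtype {V ∈ 𝒱 | x ∈ V} (fun _ => (1 : ℝ≥0∞))]
    refine tsum_congr fun V => ?_
    by_cases hV : V ∈ 𝒱 <;> by_cases hx : x ∈ V <;> simp [Set.indicator, hV, hx]
  rw [h, ENNReal.tsum_set_one]
  exact_mod_cast h2

theorem r05_half (C : ℝ≥0∞) (μ : ℕ) : C / (2 * μ) * μ ≤ C / 2 := by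
  rcases Nat.eq_zero_or_pos μ with h | h
  · subst h
    simp
  · have hμ : (μ : ℝ≥0∞) ≠ 0 := by exact_mod_cast h.ne'
    have hμ' : (μ : ℝ≥0∞) ≠ ∞ := ENNReal.natCast_ne_top μ
    rw [div_eq_mul_inv, div_eq_mul_inv, ENNReal.mul_inv (Or.inl two_ne_zero) (Or.inl (by simp)),
      mul_assoc, mul_assoc, ENNReal.inv_mul_cancel hμ hμ', mul_one]

open Classical in
/-- a bound for all localised functions gives a bound for all functions -/
theorem r05_glob (S : HullSpace Γ X) (R : ℝ) (𝒱 : Set (Set X))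
    (h1 : ∀ x y z : X, S.d x y ≤ R → S.d y z ≤ R → ∃ V ∈ 𝒱, x ∈ V ∧ y ∈ V ∧ z ∈ V)
    (h2 : ∀ x, {V ∈ 𝒱 | x ∈ V}.encard ≤ S.μ) (o : X) (f : Γ → ℝ≥0∞)
    (hf : ∀ g, f g ≠ 0 → S.d (g • o) o ≤ R) (K : ℝ≥0∞)
    (hK : ∀ V ∈ 𝒱, ∀ ψ : Γ → ℝ≥0∞, (∀ u, ψ u ≠ 0 → u • o ∈ V) → ∑' u, ψ u ^ 2 ≠ ∞ →
      ∑' x, ∑' y, ψ x * ker f x y * ψ y ≤ K * ∑' u, ψ u ^ 2)
    (χ : Γ → ℝ≥0∞) (hχ : ∑' u, χ u ^ 2 ≠ ∞) :
    ∑' x, ∑' y, χ x * ker f x y * χ y ≤ K * S.μ * ∑' u, χ u ^ 2 := by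
  let cut : Set X → Γ → ℝ≥0∞ := fun V u => if u • o ∈ V then χ u else 0
  have hcut2 : ∀ V u, cut V u ^ 2 = (if u • o ∈ V then (1 : ℝ≥0∞) else 0) * χ u ^ 2 := by
    intro V u
    by_cases h : u • o ∈ V <;> simp [cut, h]
  have hA : ∑' x, ∑' y, χ x * ker f x y * χ y ≤
      ∑' V : 𝒱, ∑' x, ∑' y, cut V x * ker f x y * cut V y := by
    have e1 : ∑' V : 𝒱, ∑' x, ∑' y, cut V x * ker f x y * cut V y =
        ∑' x, ∑' y, ∑' V : 𝒱, cut V x * ker f x y * cut V y := by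
      rw [ENNReal.tsum_comm]
      exact tsum_congr fun x => ENNReal.tsum_comm
    rw [e1]
    refine ENNReal.tsum_le_tsum fun x => ?_
    refine ENNReal.tsum_le_tsum fun y => ?_
    by_cases h0 : ker f x y = 0
    · simp [h0]
    · have hd : S.d (y • o) (x • o) ≤ R := by
        have h3 := hf _ h0
        rw [← S.d_smul x, smul_smul, mul_inv_cancel_left] at h3
        exact h3
      have hd' : S.d (x • o) (y • o) ≤ R := by rw [S.d_comm]; exact hd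
      obtain ⟨V, hV, hx, hy, -⟩ := h1 (x • o) (y • o) (x • o) hd' hd
      refine le_trans ?_ (ENNReal.le_tsum (⟨V, hV⟩ : 𝒱))
      simp only [cut, hx, hy, if_true]
      exact le_refl _
  refine le_trans hA ?_
  have hB : ∀ V : 𝒱, ∑' x, ∑' y, cut V x * ker f x y * cut V y ≤ K * ∑' u, cut V u ^ 2 := by
    intro V
    refine hK V V.2 _ (fun u hu => ?_) ?_
    · by_contra h
      exact hu (if_neg h)
    · refine ne_top_of_le_ne_top hχ (ENNReal.tsum_le_tsum fun u => ?_)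
      rw [hcut2]
      by_cases h : u • o ∈ (V : Set X) <;> simp [h]
  refine le_trans (ENNReal.tsum_le_tsum hB) ?_
  rw [ENNReal.tsum_mul_left, mul_assoc]
  refine mul_le_mul_right ?_ K
  rw [ENNReal.tsum_comm, ← ENNReal.tsum_mul_left]
  refine ENNReal.tsum_le_tsum fun u => ?_
  simp only [hcut2]
  rw [ENNReal.tsum_mul_right]
  exact mul_le_mul_left (r05_count 𝒱 S.μ (u • o) (h2 _)) _

theorem localise' (S : HullSpace Γ X) (R : ℝ) (𝒱 : Set (Set X))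
    (h1 : ∀ x y z : X, S.d x y ≤ R → S.d y z ≤ R → ∃ V ∈ 𝒱, x ∈ V ∧ y ∈ V ∧ z ∈ V)
    (h2 : ∀ x, {V ∈ 𝒱 | x ∈ V}.encard ≤ S.μ) (o : X) (f : Γ → ℝ≥0∞)
    (hsym : ∀ g, f g⁻¹ = f g) (hf : ∀ g, f g ≠ 0 → S.d (g • o) o ≤ R)
    (C : ℝ≥0∞) (hC0 : C ≠ ∞) (hC : ¬ OpLe (ker f) C) :
    ∃ V ∈ 𝒱, ∃ ψ : Γ → ℝ≥0∞, (∀ u, ψ u ≠ 0 → u • o ∈ V) ∧ ∑' u, ψ u ^ 2 ≠ 0 ∧
      ∑' u, ψ u ^ 2 ≠ ∞ ∧
      C / (2 * S.μ) * ∑' u, ψ u ^ 2 < ∑' x, ∑' y, ψ x * ker f x y * ψ y := by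
  classical
  by_contra hcon
  push Not at hcon
  have hK : ∀ V ∈ 𝒱, ∀ ψ : Γ → ℝ≥0∞, (∀ u, ψ u ≠ 0 → u • o ∈ V) → ∑' u, ψ u ^ 2 ≠ ∞ →
      ∑' x, ∑' y, ψ x * ker f x y * ψ y ≤ C / (2 * S.μ) * ∑' u, ψ u ^ 2 := by
    intro V hV ψ h3 h4
    by_cases h5 : ∑' u, ψ u ^ 2 = 0
    · have h6 : ∀ u, ψ u = 0 := by
        intro u
        have h7 := (ENNReal.tsum_eq_zero.1 h5) u
        exact pow_eq_zero_iff (two_ne_zero) |>.1 h7
      simp [h6]
    · exact hcon V hV ψ h3 h5 h4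
  have hG : ∀ χ : Γ → ℝ≥0∞, ∑' u, χ u ^ 2 ≠ ∞ →
      ∑' x, ∑' y, χ x * ker f x y * χ y ≤ C / 2 * ∑' u, χ u ^ 2 := by
    intro χ hχ
    exact le_trans (r05_glob S R 𝒱 h1 h2 o f hf _ hK χ hχ)
      (mul_le_mul_left (r05_half C S.μ) _)
  apply hC
  intro φ ψ
  set A := ∑' x, φ x ^ 2 with hA
  set B := ∑' y, ψ y ^ 2 with hB
  set T := ∑' x, ∑' y, φ x * ker f x y * ψ y with hT
  by_cases hA0 : A = 0
  · have h6 : ∀ u, φ u = 0 := fun u =>
      pow_eq_zero_iff (two_ne_zero) |>.1 ((ENNReal.tsum_eq_zero.1 hA0) u)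
    have h7 : T = 0 := by rw [hT]; simp [h6]
    rw [h7]
    simp
  by_cases hB0 : B = 0
  · have h6 : ∀ u, ψ u = 0 := fun u =>
      pow_eq_zero_iff (two_ne_zero) |>.1 ((ENNReal.tsum_eq_zero.1 hB0) u)
    have h7 : T = 0 := by rw [hT]; simp [h6]
    rw [h7]
    simp
  by_cases hC00 : C = 0
  · -- then the kernel vanishes
    have hker : ∀ x y, ker f x y = 0 := by
      intro x y
      have h3 := hG (fun u => if u = x ∨ u = y then 1 else 0) (by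
        refine ne_top_of_le_ne_top (b := ∑' u, ((if u = x then (1 : ℝ≥0∞) else 0) +
          (if u = y then 1 else 0))) ?_ (ENNReal.tsum_le_tsum fun u => ?_)
        · rw [ENNReal.tsum_add, tsum_ite_eq, tsum_ite_eq]
          simp
        · by_cases h4 : u = x <;> by_cases h5 : u = y <;> simp [h4, h5])
      rw [hC00, ENNReal.zero_div, zero_mul] at h3
      have h4 := ENNReal.tsum_eq_zero.1 (ENNReal.tsum_eq_zero.1 (le_antisymm h3 bot_le) x) y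
      simpa using h4
    have h7 : T = 0 := by rw [hT]; simp [hker]
    rw [h7]
    simp
  by_cases hA1 : A = ∞
  · rw [hA1, ENNReal.top_mul hB0, ENNReal.mul_top (pow_ne_zero 2 hC00)]
    exact le_top
  by_cases hB1 : B = ∞
  · rw [hB1, ENNReal.mul_top hA0, ENNReal.mul_top (pow_ne_zero 2 hC00)]
    exact le_top
  obtain ⟨a, ha0, ha1, ha⟩ := r05_sqrt A hA0 hA1
  obtain ⟨b, hb0, hb1, hb⟩ := r05_sqrt B hB0 hB1
  have hn : ∑' u, (a⁻¹ * φ u + b⁻¹ * ψ u) ^ 2 ≤ 4 := by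
    refine le_trans (ENNReal.tsum_le_tsum fun u => r05_add_sq _ _) ?_
    rw [ENNReal.tsum_mul_left, ENNReal.tsum_add]
    simp only [mul_pow]
    rw [ENNReal.tsum_mul_left, ENNReal.tsum_mul_left, ← hA, ← hB, ← ha, ← hb, ← mul_pow, ← mul_pow,
      ENNReal.inv_mul_cancel ha0 ha1, ENNReal.inv_mul_cancel hb0 hb1]
    norm_num
  have h3 := hG (fun u => a⁻¹ * φ u + b⁻¹ * ψ u)
    (ne_top_of_le_ne_top (by simp) hn)
  have hksym : ∀ x y, ker f x y = ker f y x := by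
    intro x y
    show f (x⁻¹ * y) = f (y⁻¹ * x)
    rw [← hsym (x⁻¹ * y)]
    congr 1
    group
  have h4 : 2 * (a⁻¹ * b⁻¹ * T) ≤
      ∑' x, ∑' y, (a⁻¹ * φ x + b⁻¹ * ψ x) * ker f x y * (a⁻¹ * φ y + b⁻¹ * ψ y) := by
    have h5 : a⁻¹ * b⁻¹ * T = ∑' x, ∑' y, (a⁻¹ * φ x) * ker f x y * (b⁻¹ * ψ y) := by
      rw [hT, ← ENNReal.tsum_mul_left]
      refine tsum_congr fun x => ?_
      rw [← ENNReal.tsum_mul_left]
      refine tsum_congr fun y => ?_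
      ring
    have h6 : a⁻¹ * b⁻¹ * T = ∑' x, ∑' y, (b⁻¹ * ψ x) * ker f x y * (a⁻¹ * φ y) := by
      rw [h5, ENNReal.tsum_comm]
      refine tsum_congr fun x => tsum_congr fun y => ?_
      rw [hksym y x]
      ring
    rw [two_mul]
    nth_rewrite 1 [h5]
    rw [h6, ← ENNReal.tsum_add]
    refine ENNReal.tsum_le_tsum fun x => ?_
    rw [← ENNReal.tsum_add]
    refine ENNReal.tsum_le_tsum fun y => ?_
    calc a⁻¹ * φ x * ker f x y * (b⁻¹ * ψ y) + b⁻¹ * ψ x * ker f x y * (a⁻¹ * φ y)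
        ≤ (a⁻¹ * φ x * ker f x y * (b⁻¹ * ψ y) + b⁻¹ * ψ x * ker f x y * (a⁻¹ * φ y)) +
          (a⁻¹ * φ x * ker f x y * (a⁻¹ * φ y) + b⁻¹ * ψ x * ker f x y * (b⁻¹ * ψ y)) :=
          le_self_add
      _ = _ := by ring
  have h5 : 2 * (a⁻¹ * b⁻¹ * T) ≤ 2 * C := by
    refine le_trans h4 (le_trans h3 (le_trans (mul_le_mul_right hn _) ?_))
    have h6 : C / 2 * 4 = 2 * C := by
      rw [show (4 : ℝ≥0∞) = 2 * 2 by norm_num, ← mul_assoc,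
        ENNReal.div_mul_cancel (by norm_num) (by norm_num), mul_comm]
    rw [h6]
  have h6 : a⁻¹ * b⁻¹ * T ≤ C :=
    (ENNReal.mul_le_mul_iff_right (by norm_num) (by norm_num)).1 h5
  have h7 : T ≤ C * (a * b) := by
    calc T = (a * a⁻¹) * (b * b⁻¹) * T := by
          rw [ENNReal.mul_inv_cancel ha0 ha1, ENNReal.mul_inv_cancel hb0 hb1, one_mul, one_mul]
      _ = (a⁻¹ * b⁻¹ * T) * (a * b) := by ring
      _ ≤ C * (a * b) := mul_le_mul_left h6 _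
  calc T ^ 2 ≤ (C * (a * b)) ^ 2 := pow_le_pow_left' h7 2
    _ = C ^ 2 * (A * B) := by rw [← ha, ← hb]; ring

end RapidDecay
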