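import Mathlib

/-!
Windows (step 3): pigeonhole over scales.

Let `c j` be the mean over `t < 4 ^ (J - j)` of `Φ (Icc (t 4^j) ((t+1) 4^j))`. Every window of scale
`j + 1` contains four windows of scale `j`, so `c` is increasing, and `c J - c 0 ≤ 2 M`. So
`c (j+1) - c j ≤ 2 M / J` for some `j < J`, and for some `t` the sum over the four subwindows of
`Φ(I) - Φ(subwindow)` is at most `8 M / J`; all four terms are nonnegative. (Avoid means: use the sums
`s j = ∑ t < 4^(J-j), 4^j * Φ(...)`.)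
-/

open scoped BigOperators

namespace RapidDecay

theorem R06_four (f : ℕ → ℝ) (n : ℕ) : ∑ t ∈ Finset.range (4 * n), f t
    = ∑ t ∈ Finset.range n, (f (4 * t) + f (4 * t + 1) + f (4 * t + 2) + f (4 * t + 3)) := by
  induction n with
  | zero => simp
  | succ n ih =>
    rw [Finset.sum_range_succ, ← ih, show 4 * (n + 1) = 4 * n + 1 + 1 + 1 + 1 by ring,
      Finset.sum_range_succ, Finset.sum_range_succ, Finset.sum_range_succ, Finset.sum_range_succ]
    ring

theorem windows (J : ℕ) (hJ : 1 ≤ J) (Φ : Finset ℕ → ℝ) (a M : ℝ)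
    (hmono : ∀ I I' : Finset ℕ, I'.Nonempty → I' ⊆ I → Φ I' ≤ Φ I)
    (hb : ∀ I : Finset ℕ, I.Nonempty → I ⊆ Finset.range (4 ^ J + 1) → |Φ I - a| ≤ M) :
    ∃ j t : ℕ, j < J ∧ (4 * t + 4) * 4 ^ j ≤ 4 ^ J ∧ ∀ i < 3,
      Φ (Finset.Icc (4 * t * 4 ^ j) ((4 * t + 4) * 4 ^ j))
        - Φ (Finset.Icc ((4 * t + i) * 4 ^ j) ((4 * t + i + 1) * 4 ^ j)) ≤ 8 * M / J := by
  by_contra hcon
  push Not at hcon
  set W : ℕ → ℕ → Finset ℕ := fun j t => Finset.Icc (t * 4 ^ j) ((t + 1) * 4 ^ j) with hW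
  have hWne : ∀ j t, (W j t).Nonempty := by
    intro j t
    refine Finset.nonempty_Icc.2 ?_
    exact Nat.mul_le_mul_right _ (Nat.le_succ t)
  set s : ℕ → ℝ := fun j => ∑ t ∈ Finset.range (4 ^ (J - j)), (4 : ℝ) ^ j * Φ (W j t) with hs
  have hJ0 : (0 : ℝ) < J := by exact_mod_cast hJ
  have hstep : ∀ j < J, s j + (4 : ℝ) ^ J * (2 * M / J) < s (j + 1) := by
    intro j hj
    have e1 : 4 ^ (J - j) = 4 * 4 ^ (J - (j + 1)) := by
      rw [← pow_succ', show J - (j + 1) + 1 = J - j by omega]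
    have e2 : s j = ∑ t ∈ Finset.range (4 ^ (J - (j + 1))), (4 : ℝ) ^ j *
        (Φ (W j (4 * t)) + Φ (W j (4 * t + 1)) + Φ (W j (4 * t + 2)) + Φ (W j (4 * t + 3))) := by
      simp only [hs]
      rw [e1, R06_four (fun t => (4 : ℝ) ^ j * Φ (W j t))]
      refine Finset.sum_congr rfl fun t _ => ?_
      ring
    have e3 : s (j + 1) = ∑ t ∈ Finset.range (4 ^ (J - (j + 1))), (4 : ℝ) ^ j *
        (4 * Φ (W (j + 1) t)) := by
      simp only [hs]
      refine Finset.sum_congr rfl fun t _ => ?_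
      rw [pow_succ]
      ring
    have hsub : ∀ t i : ℕ, i < 4 → W j (4 * t + i) ⊆ W (j + 1) t := by
      intro t i hi x hx
      rw [Finset.mem_Icc] at hx ⊢
      have hp : 4 ^ (j + 1) = 4 * 4 ^ j := by rw [pow_succ]; ring
      rw [hp]
      constructor
      · calc t * (4 * 4 ^ j) = (4 * t) * 4 ^ j := by ring
          _ ≤ (4 * t + i) * 4 ^ j := Nat.mul_le_mul_right _ (by omega)
          _ ≤ x := hx.1
      · calc x ≤ (4 * t + i + 1) * 4 ^ j := hx.2
          _ ≤ (4 * t + 4) * 4 ^ j := Nat.mul_le_mul_right _ (by omega)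
          _ = (t + 1) * (4 * 4 ^ j) := by ring
    have hlt : ∀ t ∈ Finset.range (4 ^ (J - (j + 1))), (4 : ℝ) ^ j *
        (Φ (W j (4 * t)) + Φ (W j (4 * t + 1)) + Φ (W j (4 * t + 2)) + Φ (W j (4 * t + 3)))
          + (4 : ℝ) ^ j * (8 * M / J) < (4 : ℝ) ^ j * (4 * Φ (W (j + 1) t)) := by
      intro t ht
      have ht' : t + 1 ≤ 4 ^ (J - (j + 1)) := Finset.mem_range.1 ht
      have hle : (4 * t + 4) * 4 ^ j ≤ 4 ^ J := by
        calc (4 * t + 4) * 4 ^ j = (t + 1) * 4 ^ (j + 1) := by rw [pow_succ]; ring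
          _ ≤ 4 ^ (J - (j + 1)) * 4 ^ (j + 1) := Nat.mul_le_mul_right _ ht'
          _ = 4 ^ J := by rw [← pow_add]; congr 1; omega
      obtain ⟨i, hi, hgt⟩ := hcon j t hj hle
      have eW : Finset.Icc (4 * t * 4 ^ j) ((4 * t + 4) * 4 ^ j) = W (j + 1) t := by
        simp only [hW]
        rw [pow_succ]
        congr 1 <;> ring
      have eW2 : Finset.Icc ((4 * t + i) * 4 ^ j) ((4 * t + i + 1) * 4 ^ j) = W j (4 * t + i) := rfl
      rw [eW, eW2] at hgt
      have h0 := hmono _ _ (hWne j (4 * t + 0)) (hsub t 0 (by norm_num))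
      have h1 := hmono _ _ (hWne j (4 * t + 1)) (hsub t 1 (by norm_num))
      have h2 := hmono _ _ (hWne j (4 * t + 2)) (hsub t 2 (by norm_num))
      have h3 := hmono _ _ (hWne j (4 * t + 3)) (hsub t 3 (by norm_num))
      rw [add_zero] at h0
      rw [← mul_add]
      refine mul_lt_mul_of_pos_left ?_ (by positivity)
      interval_cases i
      · rw [add_zero] at hgt
        linarith
      · linarith
      · linarith
    have hne : (Finset.range (4 ^ (J - (j + 1)))).Nonempty := by
      rw [Finset.nonempty_range_iff]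
      positivity
    have hsum := Finset.sum_lt_sum_of_nonempty hne hlt
    rw [Finset.sum_add_distrib, ← e2, ← e3, Finset.sum_const, Finset.card_range, nsmul_eq_mul]
      at hsum
    refine lt_of_le_of_lt (le_of_eq ?_) hsum
    congr 1
    push_cast
    have e4 : (4 : ℝ) ^ J = 4 * ((4 : ℝ) ^ (J - (j + 1)) * (4 : ℝ) ^ j) := by
      rw [← pow_add, ← pow_succ']
      congr 1
      omega
    rw [e4]
    ring
  have hall : ∀ j ≤ J, 1 ≤ j → s 0 + j * ((4 : ℝ) ^ J * (2 * M / J)) < s j := by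
    intro j
    induction j with
    | zero => intro _ h; omega
    | succ j ih =>
      intro hj _
      have h1 := hstep j (by omega)
      rcases Nat.eq_zero_or_pos j with h0 | h0
      · subst h0
        push_cast
        linarith
      · have h2 := ih (by omega) h0
        push_cast
        linarith
  have hfin := hall J le_rfl hJ
  have e5 : (J : ℝ) * ((4 : ℝ) ^ J * (2 * M / J)) = (4 : ℝ) ^ J * (2 * M) := by
    field_simp
  rw [e5] at hfin
  have hJJ : s J ≤ (4 : ℝ) ^ J * (a + M) := by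
    simp only [hs]
    rw [Nat.sub_self, pow_zero, Finset.sum_range_one]
    refine mul_le_mul_of_nonneg_left ?_ (by positivity)
    have h := hb (W J 0) (hWne J 0) (by
      intro x hx
      rw [Finset.mem_Icc] at hx
      rw [Finset.mem_range]
      have := hx.2
      omega)
    have := (abs_le.1 h).2
    linarith
  have h00 : (4 : ℝ) ^ J * (a - M) ≤ s 0 := by
    simp only [hs]
    rw [Nat.sub_zero, pow_zero]
    have h : ∀ t ∈ Finset.range (4 ^ J), a - M ≤ 1 * Φ (W 0 t) := by
      intro t ht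
      have h := hb (W 0 t) (hWne 0 t) (by
        intro x hx
        rw [Finset.mem_Icc] at hx
        rw [Finset.mem_range] at ht ⊢
        have := hx.2
        rw [pow_zero, mul_one] at this
        omega)
      have := (abs_le.1 h).1
      linarith
    have h2 := Finset.sum_le_sum h
    rw [Finset.sum_const, Finset.card_range, nsmul_eq_mul] at h2
    push_cast at h2
    exact h2
  nlinarith [hfin, hJJ, h00]

end RapidDecay
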