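import Pool.Agent.Lib.MP_fee02f_an.RR.R01

/-!
Decoupling (step 4).

For `V ∈ 𝒱` put `g V a = ∑' p, [x1 a p ∈ V] L a p`, `h V b = ∑' r, [x3 b r ∈ V] T b r`. By `hM`,
`(∑∑ g V a * M V a b * h V b)² ≤ (K² ∑ (g V)²) (∑ (h V)²)`, and `cs_sq` over `V` bounds the square of the
sum by `K² (∑_V ∑_a (g V a)²) (∑_V ∑_b (h V b)²)`. Here `∑_V (g V a)² ≤ (∑_V g V a)²` (`tsum_sq_le`) and
`∑_V g V a = ∑' p, #{V ∋ x1 a p} * L a p ≤ μ ∑' p, L a p`.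
-/

open scoped ENNReal

namespace RapidDecay

variable {Y X : Type*}

open Classical in
theorem R07_count (𝒱 : Set (Set X)) (μ : ℕ) (h2 : ∀ x, {V ∈ 𝒱 | x ∈ V}.encard ≤ μ) (x : X)
    (c : ℝ≥0∞) : ∑' V : 𝒱, (if x ∈ (V : Set X) then c else 0) ≤ (μ : ℝ≥0∞) * c := by
  have h1 : ∑' V : 𝒱, (if x ∈ (V : Set X) then c else 0) =
      ∑' _ : {V ∈ 𝒱 | x ∈ V}, c := by
    rw [tsum_subtype 𝒱 (fun V : Set X => if x ∈ V then c else 0),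
      tsum_subtype {V ∈ 𝒱 | x ∈ V} (fun _ : Set X => c)]
    refine tsum_congr fun V => ?_
    by_cases hV : V ∈ 𝒱
    · by_cases hx : x ∈ V
      · rw [Set.indicator_of_mem hV, if_pos hx, Set.indicator_of_mem (by exact ⟨hV, hx⟩)]
      · rw [Set.indicator_of_mem hV, if_neg hx, Set.indicator_of_notMem (by exact fun h => hx h.2)]
    · rw [Set.indicator_of_notMem hV, Set.indicator_of_notMem (by exact fun h => hV h.1)]
  rw [h1, ENNReal.tsum_set_const]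
  refine mul_le_mul_left ?_ c
  have h3 := h2 x
  exact_mod_cast h3

open Classical in
theorem R07_sum (𝒱 : Set (Set X)) (μ : ℕ) (h2 : ∀ x, {V ∈ 𝒱 | x ∈ V}.encard ≤ μ)
    {A : Type*} (L : Y → A → ℝ≥0∞) (x1 : Y → A → X) :
    ∑' V : 𝒱, ∑' a, (∑' p, if x1 a p ∈ (V : Set X) then L a p else 0) ^ 2
      ≤ (μ : ℝ≥0∞) ^ 2 * ∑' a, (∑' p, L a p) ^ 2 := by
  rw [ENNReal.tsum_comm, ← ENNReal.tsum_mul_left]
  refine ENNReal.tsum_le_tsum fun a => ?_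
  refine (tsum_sq_le _).trans ?_
  rw [← mul_pow]
  refine pow_le_pow_left' ?_ 2
  rw [ENNReal.tsum_comm, ← ENNReal.tsum_mul_left]
  exact ENNReal.tsum_le_tsum fun p => R07_count 𝒱 μ h2 (x1 a p) (L a p)

open Classical in
theorem decouple (𝒱 : Set (Set X)) (μ : ℕ) (h2 : ∀ x, {V ∈ 𝒱 | x ∈ V}.encard ≤ μ)
    (K : ℝ≥0∞) (M : Set X → Y → Y → ℝ≥0∞) (hM : ∀ V ∈ 𝒱, OpLe (M V) K)
    {A B : Type*} (L : Y → A → ℝ≥0∞) (x1 : Y → A → X) (T : Y → B → ℝ≥0∞) (x3 : Y → B → X) :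
    (∑' V : 𝒱, ∑' a, ∑' b, (∑' p, if x1 a p ∈ (V : Set X) then L a p else 0) * M V a b
        * (∑' r, if x3 b r ∈ (V : Set X) then T b r else 0)) ^ 2
      ≤ ((μ : ℝ≥0∞) ^ 2 * K) ^ 2
        * ((∑' a, (∑' p, L a p) ^ 2) * ∑' b, (∑' r, T b r) ^ 2) := by
  have h := cs_sq (I := 𝒱)
    (fun V => ∑' a, ∑' b, (∑' p, if x1 a p ∈ (V : Set X) then L a p else 0) * M V a b
        * (∑' r, if x3 b r ∈ (V : Set X) then T b r else 0))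
    (fun V => K ^ 2 * ∑' a, (∑' p, if x1 a p ∈ (V : Set X) then L a p else 0) ^ 2)
    (fun V => ∑' b, (∑' r, if x3 b r ∈ (V : Set X) then T b r else 0) ^ 2)
    (fun V => by
      rw [mul_assoc]
      exact hM V V.2 _ _)
  refine h.trans ?_
  rw [ENNReal.tsum_mul_left]
  have h3 := R07_sum 𝒱 μ h2 L x1
  have h4 := R07_sum 𝒱 μ h2 T x3
  calc _ ≤ (K ^ 2 * ((μ : ℝ≥0∞) ^ 2 * ∑' a, (∑' p, L a p) ^ 2))
        * ((μ : ℝ≥0∞) ^ 2 * ∑' b, (∑' r, T b r) ^ 2) :=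
        mul_le_mul' (mul_le_mul' le_rfl h3) h4
    _ = _ := by ring

end RapidDecay
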