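import Pool.Agent.Lib.MP_fee02f_an.RR.R03
import Pool.Agent.Lib.MP_fee02f_an.RR.R04
import Pool.Agent.Lib.MP_fee02f_an.RR.R07

/-!
Paths with three close windows.

Let `Q` be the condition that the centres of the windows `I1 ⊆ [0, m]`, `I2 ⊆ [m, m + k]`,
`I3 ⊆ [m + k, m + k + n]` are close (`d(x1,x2), d(x2,x3) ≤ ρ`), so that they lie in a common `V ∈ 𝒱`. Split
the path `x, b` as `b = append b1 (append b2 b3)` (`tsum_append` twice): `b1` leads from `x` to
`a = pth x b1 m`, `b2` from `a` to `c`, `b3` from `c` to the end. The centre of `I1` depends on `(x, b1)`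
only, that of `I2` on `(a, b2)`, that of `I3` on `(c, b3)` (`hl_congr`, `pth_append`). Translate `b2 = a b2'`
(`tsum_smul`, `sw_smul`, `hl_smul`). So the sum is at most the left hand side of `decouple` with
`A = Γ × (Fin m → Γ)`, `L a (x, b1) = [pth x b1 m = a] ψ x * sw x b1`, `B = Fin n → Γ`,
`T c b3 = sw c b3 * ψ (end)`, and `M V` from `loc_conv` (its constant: `C` times the norm of
`KK (ker f) k 1 ·`, `KK_row`, `KK_eq`, `k ≥ 1`). `∑' p, L a p = ∑' x, ψ x * KK m x a` (`KK_left`),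
`∑' r, T c r = ∑' z, KK n c z * ψ z` (`KK_right`).
-/

open scoped ENNReal

namespace RapidDecay

theorem R08_fib {P Z : Type*} (e : P → Z) (w : P → ℝ≥0∞) (h : Z → ℝ≥0∞) :
    ∑' p, w p * h (e p) = ∑' a, (∑' p, open Classical in if e p = a then w p else 0) * h a := by
  classical
  calc ∑' p, w p * h (e p) = ∑' p, ∑' a, (if e p = a then w p else 0) * h a := by
        refine tsum_congr fun p => ?_
        rw [tsum_eq_single (e p)]
        · simp
        · intro b hb
          rw [if_neg (fun h => hb h.symm), zero_mul]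
    _ = ∑' a, ∑' p, (if e p = a then w p else 0) * h a := ENNReal.tsum_comm
    _ = _ := by
        refine tsum_congr fun a => ?_
        rw [ENNReal.tsum_mul_right]

variable {Y : Type*}

theorem R08_pth {m n : ℕ} (x : Y) (b : Fin m → Y) (c : Fin n → Y) (i : ℕ) (h1 : m ≤ i)
    (h2 : i ≤ m + n) : pth x (Fin.append b c) i = pth (pth x b m) c (i - m) := by
  rw [pth_append x b c i h2]
  split_ifs with h
  · have : i = m := le_antisymm h h1
    subst this
    rw [Nat.sub_self, pth_zero]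
  · rfl

variable {Γ X : Type*} [Group Γ] [MulAction Γ X]

/-- the kernel of the middle part -/
noncomputable def R08_M (S : HullSpace Γ X) (o : X) (f : Γ → ℝ≥0∞) (m k : ℕ) (I2 : Finset ℕ)
    (V : Set X) (a c : Γ) : ℝ≥0∞ :=
  ∑' b : Fin (k + 1) → Γ, open Classical in
    if a * pth 1 b (k + 1) = c ∧ a • S.hl (fun i => pth 1 b (i - m) • o) I2 ∈ V
      then sw (ker f) 1 b else 0

open Classical in
/-- the sum over the paths, split at two vertices -/
theorem R08_split (S : HullSpace Γ X) (o : X) (f : Γ → ℝ≥0∞) (ρ : ℝ) (ψ : Γ → ℝ≥0∞)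
    (m k n : ℕ) (I1 I2 I3 : Finset ℕ) (hn1 : I1.Nonempty) (hn2 : I2.Nonempty) (hn3 : I3.Nonempty)
    (hI1 : I1 ⊆ Finset.Icc 0 m) (hI2 : I2 ⊆ Finset.Icc m (m + (k + 1)))
    (hI3 : I3 ⊆ Finset.Icc (m + (k + 1)) (m + ((k + 1) + n))) :
    (∑' x : Γ, ∑' b : Fin (m + ((k + 1) + n)) → Γ,
      if S.d (S.hl (fun i => pth x b i • o) I1) (S.hl (fun i => pth x b i • o) I2) ≤ ρ ∧
          S.d (S.hl (fun i => pth x b i • o) I2) (S.hl (fun i => pth x b i • o) I3) ≤ ρ
        then ψ x * sw (ker f) x b * ψ (pth x b (m + ((k + 1) + n))) else 0)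
      = ∑' x : Γ, ∑' b1 : Fin m → Γ, ∑' b2 : Fin (k + 1) → Γ, ∑' b3 : Fin n → Γ,
        if S.d (S.hl (fun i => pth x b1 i • o) I1)
            (pth x b1 m • S.hl (fun i => pth 1 b2 (i - m) • o) I2) ≤ ρ ∧
          S.d (pth x b1 m • S.hl (fun i => pth 1 b2 (i - m) • o) I2)
            (S.hl (fun i => pth (pth x b1 m * pth 1 b2 (k + 1)) b3 (i - (m + (k + 1))) • o) I3) ≤ ρ
        then (ψ x * sw (ker f) x b1) * (sw (ker f) 1 b2 *
          (sw (ker f) (pth x b1 m * pth 1 b2 (k + 1)) b3 *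
            ψ (pth (pth x b1 m * pth 1 b2 (k + 1)) b3 n))) else 0 := by
  refine tsum_congr fun x => ?_
  rw [tsum_append]
  refine tsum_congr fun b1 => ?_
  rw [tsum_append, tsum_smul (pth x b1 m)]
  refine tsum_congr fun b2 => tsum_congr fun b3 => ?_
  set a := pth x b1 m with ha
  have hb2 : ∀ j, pth a (fun j => a * b2 j) j = a * pth 1 b2 j := by
    intro j
    have := pth_smul a 1 b2 j
    rwa [mul_one] at this
  have hsw2 : sw (ker f) a (fun j => a * b2 j) = sw (ker f) 1 b2 := by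
    have := sw_smul (f := f) a 1 b2
    rwa [mul_one] at this
  set c := a * pth 1 b2 (k + 1) with hc
  have hpa : ∀ i, m ≤ i → i ≤ m + ((k + 1) + n) →
      pth x (Fin.append b1 (Fin.append (fun j => a * b2 j) b3)) i
        = pth a (Fin.append (fun j => a * b2 j) b3) (i - m) := by
    intro i h1 h2
    exact R08_pth x b1 _ i h1 h2
  have e1 : S.hl (fun i => pth x (Fin.append b1 (Fin.append (fun j => a * b2 j) b3)) i • o) I1
      = S.hl (fun i => pth x b1 i • o) I1 := by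
    refine S.hl_congr _ _ _ hn1 fun i hi => ?_
    have := (Finset.mem_Icc.1 (hI1 hi)).2
    rw [pth_append _ _ _ _ (by omega), if_pos this]
  have e2 : S.hl (fun i => pth x (Fin.append b1 (Fin.append (fun j => a * b2 j) b3)) i • o) I2
      = a • S.hl (fun i => pth 1 b2 (i - m) • o) I2 := by
    rw [← S.hl_smul a _ _ hn2]
    refine S.hl_congr _ _ _ hn2 fun i hi => ?_
    have h := Finset.mem_Icc.1 (hI2 hi)
    rw [hpa i h.1 (by omega), pth_append _ _ _ _ (by omega), if_pos (by omega), hb2, mul_smul]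
  have e3 : S.hl (fun i => pth x (Fin.append b1 (Fin.append (fun j => a * b2 j) b3)) i • o) I3
      = S.hl (fun i => pth c b3 (i - (m + (k + 1))) • o) I3 := by
    refine S.hl_congr _ _ _ hn3 fun i hi => ?_
    have h := Finset.mem_Icc.1 (hI3 hi)
    rw [hpa i (by omega) h.2, R08_pth _ _ _ _ (by omega) (by omega), hb2,
      show i - m - (k + 1) = i - (m + (k + 1)) by omega]
  have e4 : pth x (Fin.append b1 (Fin.append (fun j => a * b2 j) b3)) (m + ((k + 1) + n))
      = pth c b3 n := by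
    rw [hpa _ (by omega) le_rfl, R08_pth _ _ _ _ (by omega) (by omega), hb2,
      show m + ((k + 1) + n) - m - (k + 1) = n by omega]
  have e5 : sw (ker f) x (Fin.append b1 (Fin.append (fun j => a * b2 j) b3))
      = sw (ker f) x b1 * (sw (ker f) 1 b2 * sw (ker f) c b3) := by
    rw [sw_append, sw_append, hb2, hsw2]
  rw [e1, e2, e3, e4, e5]
  split_ifs with h
  · ring
  · rfl

open Classical in
theorem three (S : HullSpace Γ X) (o : X) (f : Γ → ℝ≥0∞) (ρ Dm : ℝ) (𝒱 : Set (Set X))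
    (h1 : ∀ x y z : X, S.d x y ≤ ρ → S.d y z ≤ ρ → ∃ V ∈ 𝒱, x ∈ V ∧ y ∈ V ∧ z ∈ V)
    (h2 : ∀ x, {V ∈ 𝒱 | x ∈ V}.encard ≤ S.μ) (h3 : ∀ V ∈ 𝒱, ∀ x ∈ V, ∀ y ∈ V, S.d x y ≤ Dm)
    (C Λ : ℝ≥0∞) (hC : LB S (2 * Dm) C) (hΛ : OpLe (ker f) Λ) (ψ : Γ → ℝ≥0∞)
    (m k n : ℕ) (I1 I2 I3 : Finset ℕ) (hn1 : I1.Nonempty) (hn2 : I2.Nonempty) (hn3 : I3.Nonempty)
    (hI1 : I1 ⊆ Finset.Icc 0 m) (hI2 : I2 ⊆ Finset.Icc m (m + (k + 1)))
    (hI3 : I3 ⊆ Finset.Icc (m + (k + 1)) (m + ((k + 1) + n))) :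
    (∑' x : Γ, ∑' b : Fin (m + ((k + 1) + n)) → Γ,
      if S.d (S.hl (fun i => pth x b i • o) I1) (S.hl (fun i => pth x b i • o) I2) ≤ ρ ∧
          S.d (S.hl (fun i => pth x b i • o) I2) (S.hl (fun i => pth x b i • o) I3) ≤ ρ
        then ψ x * sw (ker f) x b * ψ (pth x b (m + ((k + 1) + n))) else 0) ^ 2
      ≤ ((S.μ : ℝ≥0∞) ^ 2 * C * Λ ^ (m + k + n)) ^ 2 * (∑' g, f g ^ 2)
        * (∑' x, ψ x ^ 2) ^ 2 := by
  rw [R08_split S o f ρ ψ m k n I1 I2 I3 hn1 hn2 hn3 hI1 hI2 hI3]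
  -- the pieces
  set y1 : Γ × (Fin m → Γ) → X := fun p => S.hl (fun i => pth p.1 p.2 i • o) I1 with hy1
  set y2 : (Fin (k + 1) → Γ) → X := fun b => S.hl (fun i => pth 1 b (i - m) • o) I2 with hy2
  set y3 : Γ → (Fin n → Γ) → X :=
    fun c b => S.hl (fun i => pth c b (i - (m + (k + 1))) • o) I3 with hy3
  set e1 : Γ × (Fin m → Γ) → Γ := fun p => pth p.1 p.2 m with he1
  set e2 : (Fin (k + 1) → Γ) → Γ := fun b => pth 1 b (k + 1) with he2
  set w1 : Γ × (Fin m → Γ) → ℝ≥0∞ := fun p => ψ p.1 * sw (ker f) p.1 p.2 with hw1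
  set w2 : (Fin (k + 1) → Γ) → ℝ≥0∞ := fun b => sw (ker f) 1 b with hw2
  set w3 : Γ → (Fin n → Γ) → ℝ≥0∞ := fun c b => sw (ker f) c b * ψ (pth c b n) with hw3
  have step1 : (∑' x : Γ, ∑' b1 : Fin m → Γ, ∑' b2 : Fin (k + 1) → Γ, ∑' b3 : Fin n → Γ,
        if S.d (S.hl (fun i => pth x b1 i • o) I1)
            (pth x b1 m • S.hl (fun i => pth 1 b2 (i - m) • o) I2) ≤ ρ ∧
          S.d (pth x b1 m • S.hl (fun i => pth 1 b2 (i - m) • o) I2)
            (S.hl (fun i => pth (pth x b1 m * pth 1 b2 (k + 1)) b3 (i - (m + (k + 1))) • o) I3) ≤ ρ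
        then (ψ x * sw (ker f) x b1) * (sw (ker f) 1 b2 *
          (sw (ker f) (pth x b1 m * pth 1 b2 (k + 1)) b3 *
            ψ (pth (pth x b1 m * pth 1 b2 (k + 1)) b3 n))) else 0)
      ≤ ∑' V : 𝒱, ∑' a, ∑' c,
        (∑' p, if y1 p ∈ (V : Set X) then (if e1 p = a then w1 p else 0) else 0)
          * R08_M S o f m k I2 V a c
          * (∑' r, if y3 c r ∈ (V : Set X) then w3 c r else 0) := by
    have hV : ∀ V : 𝒱, (∑' p, (if y1 p ∈ (V : Set X) then w1 p else 0) *
        (∑' b2, (if e1 p • y2 b2 ∈ (V : Set X) then w2 b2 else 0) *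
          (∑' r, if y3 (e1 p * e2 b2) r ∈ (V : Set X) then w3 (e1 p * e2 b2) r else 0)))
        = ∑' a, ∑' c,
        (∑' p, if y1 p ∈ (V : Set X) then (if e1 p = a then w1 p else 0) else 0)
          * R08_M S o f m k I2 V a c
          * (∑' r, if y3 c r ∈ (V : Set X) then w3 c r else 0) := by
      intro V
      have hin : ∀ a : Γ, (∑' b2, (if a • y2 b2 ∈ (V : Set X) then w2 b2 else 0) *
          (∑' r, if y3 (a * e2 b2) r ∈ (V : Set X) then w3 (a * e2 b2) r else 0))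
          = ∑' c, R08_M S o f m k I2 V a c
            * (∑' r, if y3 c r ∈ (V : Set X) then w3 c r else 0) := by
        intro a
        have h := R08_fib (fun b2 => a * e2 b2)
          (fun b2 => if a • y2 b2 ∈ (V : Set X) then w2 b2 else 0)
          (fun c => ∑' r, if y3 c r ∈ (V : Set X) then w3 c r else 0)
        rw [h]
        refine tsum_congr fun c => ?_
        congr 1
        unfold R08_M
        refine tsum_congr fun b2 => ?_
        by_cases hA : a * e2 b2 = c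
        · by_cases hB : a • y2 b2 ∈ (V : Set X)
          · rw [if_pos hA, if_pos hB, if_pos ⟨hA, hB⟩]
          · rw [if_pos hA, if_neg hB, if_neg (fun h => hB h.2)]
        · rw [if_neg hA, if_neg (fun h => hA h.1)]
      have h := R08_fib e1 (fun p => if y1 p ∈ (V : Set X) then w1 p else 0)
        (fun a => ∑' c, R08_M S o f m k I2 V a c
            * (∑' r, if y3 c r ∈ (V : Set X) then w3 c r else 0))
      calc (∑' p, (if y1 p ∈ (V : Set X) then w1 p else 0) *
          (∑' b2, (if e1 p • y2 b2 ∈ (V : Set X) then w2 b2 else 0) *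
            (∑' r, if y3 (e1 p * e2 b2) r ∈ (V : Set X) then w3 (e1 p * e2 b2) r else 0)))
          = ∑' p, (if y1 p ∈ (V : Set X) then w1 p else 0) *
            (∑' c, R08_M S o f m k I2 V (e1 p) c
              * (∑' r, if y3 c r ∈ (V : Set X) then w3 c r else 0)) := by
            refine tsum_congr fun p => ?_
            rw [hin (e1 p)]
        _ = _ := by
            rw [h]
            refine tsum_congr fun a => ?_
            rw [← ENNReal.tsum_mul_left]
            refine tsum_congr fun c => ?_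
            rw [← mul_assoc]
            congr 2
            refine tsum_congr fun p => ?_
            by_cases hA : e1 p = a <;> by_cases hB : y1 p ∈ (V : Set X) <;> simp [hA, hB]
    calc _ ≤ ∑' x : Γ, ∑' b1 : Fin m → Γ, ∑' b2 : Fin (k + 1) → Γ, ∑' b3 : Fin n → Γ,
          ∑' V : 𝒱, (if y1 (x, b1) ∈ (V : Set X) then w1 (x, b1) else 0) *
            ((if e1 (x, b1) • y2 b2 ∈ (V : Set X) then w2 b2 else 0) *
            (if y3 (e1 (x, b1) * e2 b2) b3 ∈ (V : Set X) then w3 (e1 (x, b1) * e2 b2) b3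
              else 0)) := by
          refine ENNReal.tsum_le_tsum fun x => ENNReal.tsum_le_tsum fun b1 =>
            ENNReal.tsum_le_tsum fun b2 => ENNReal.tsum_le_tsum fun b3 => ?_
          split_ifs with hQ
          · obtain ⟨V, hV𝒱, hx1, hx2, hx3⟩ := h1 _ _ _ hQ.1 hQ.2
            refine le_trans ?_ (ENNReal.le_tsum (⟨V, hV𝒱⟩ : 𝒱))
            have hx1' : y1 (x, b1) ∈ V := hx1
            have hx2' : e1 (x, b1) • y2 b2 ∈ V := hx2
            have hx3' : y3 (e1 (x, b1) * e2 b2) b3 ∈ V := hx3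
            simp only [hx1', hx2', hx3', if_true]
            exact le_rfl
          · exact bot_le
      _ = ∑' V : 𝒱, ∑' p, (if y1 p ∈ (V : Set X) then w1 p else 0) *
        (∑' b2, (if e1 p • y2 b2 ∈ (V : Set X) then w2 b2 else 0) *
          (∑' r, if y3 (e1 p * e2 b2) r ∈ (V : Set X) then w3 (e1 p * e2 b2) r else 0)) := by
          have h4 : ∀ (x : Γ) (b1 : Fin m → Γ), (∑' b2 : Fin (k + 1) → Γ, ∑' b3 : Fin n → Γ,
              ∑' V : 𝒱, (if y1 (x, b1) ∈ (V : Set X) then w1 (x, b1) else 0) *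
                ((if e1 (x, b1) • y2 b2 ∈ (V : Set X) then w2 b2 else 0) *
                (if y3 (e1 (x, b1) * e2 b2) b3 ∈ (V : Set X) then w3 (e1 (x, b1) * e2 b2) b3
                  else 0)))
              = ∑' V : 𝒱, (if y1 (x, b1) ∈ (V : Set X) then w1 (x, b1) else 0) *
                (∑' b2, (if e1 (x, b1) • y2 b2 ∈ (V : Set X) then w2 b2 else 0) *
                  (∑' r, if y3 (e1 (x, b1) * e2 b2) r ∈ (V : Set X)
                    then w3 (e1 (x, b1) * e2 b2) r else 0)) := by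
            intro x b1
            calc _ = ∑' b2 : Fin (k + 1) → Γ, ∑' V : 𝒱, ∑' b3 : Fin n → Γ,
                (if y1 (x, b1) ∈ (V : Set X) then w1 (x, b1) else 0) *
                ((if e1 (x, b1) • y2 b2 ∈ (V : Set X) then w2 b2 else 0) *
                (if y3 (e1 (x, b1) * e2 b2) b3 ∈ (V : Set X) then w3 (e1 (x, b1) * e2 b2) b3
                  else 0)) := by
                  refine tsum_congr fun b2 => ?_
                  rw [ENNReal.tsum_comm]
              _ = ∑' V : 𝒱, ∑' b2 : Fin (k + 1) → Γ, ∑' b3 : Fin n → Γ,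
                (if y1 (x, b1) ∈ (V : Set X) then w1 (x, b1) else 0) *
                ((if e1 (x, b1) • y2 b2 ∈ (V : Set X) then w2 b2 else 0) *
                (if y3 (e1 (x, b1) * e2 b2) b3 ∈ (V : Set X) then w3 (e1 (x, b1) * e2 b2) b3
                  else 0)) := ENNReal.tsum_comm
              _ = _ := by
                  refine tsum_congr fun V => ?_
                  rw [← ENNReal.tsum_mul_left]
                  refine tsum_congr fun b2 => ?_
                  rw [ENNReal.tsum_mul_left, ENNReal.tsum_mul_left]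
          calc _ = ∑' x : Γ, ∑' b1 : Fin m → Γ, ∑' V : 𝒱,
                (if y1 (x, b1) ∈ (V : Set X) then w1 (x, b1) else 0) *
                (∑' b2, (if e1 (x, b1) • y2 b2 ∈ (V : Set X) then w2 b2 else 0) *
                  (∑' r, if y3 (e1 (x, b1) * e2 b2) r ∈ (V : Set X)
                    then w3 (e1 (x, b1) * e2 b2) r else 0)) :=
                tsum_congr fun x => tsum_congr fun b1 => h4 x b1
            _ = ∑' p : Γ × (Fin m → Γ), ∑' V : 𝒱,
                (if y1 p ∈ (V : Set X) then w1 p else 0) *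
                (∑' b2, (if e1 p • y2 b2 ∈ (V : Set X) then w2 b2 else 0) *
                  (∑' r, if y3 (e1 p * e2 b2) r ∈ (V : Set X)
                    then w3 (e1 p * e2 b2) r else 0)) := by
                rw [ENNReal.tsum_prod']
            _ = _ := ENNReal.tsum_comm
      _ = _ := tsum_congr fun V => hV V
  -- norms
  set N2 : ℝ≥0∞ := ∑' g, f g ^ 2 with hN2
  have hM : ∀ V ∈ 𝒱, OpLe (R08_M S o f m k I2 V) (C * (Λ ^ k * N2 ^ (1 / 2 : ℝ))) := by
    intro V hV
    have h := loc_conv (S := S) V Dm (h3 V hV) hC (B := Fin (k + 1) → Γ)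
      (fun b => sw (ker f) 1 b) (fun b => pth 1 b (k + 1))
      (fun b => S.hl (fun i => pth 1 b (i - m) • o) I2) (Λ ^ k * N2 ^ (1 / 2 : ℝ)) ?_
    · exact h
    · have h5 : ∀ g : Γ, (∑' p : Fin (k + 1) → Γ, if pth 1 p (k + 1) = g then sw (ker f) 1 p else 0)
          = KK (ker f) (k + 1) 1 g := fun g => (KK_eq (k + 1) 1 g).symm
      simp only [h5]
      refine (KK_row hΛ k 1).trans ?_
      rw [mul_pow, R4_rt]
      refine mul_le_mul' le_rfl (le_of_eq ?_)
      rw [hN2]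
      refine tsum_congr fun g => ?_
      unfold ker
      rw [inv_one, one_mul]
  have hdec := decouple 𝒱 S.μ h2 (C * (Λ ^ k * N2 ^ (1 / 2 : ℝ))) (R08_M S o f m k I2) hM
    (fun a p => if e1 p = a then w1 p else 0) (fun _ p => y1 p) w3 y3
  have hL : ∑' a, (∑' p, if e1 p = a then w1 p else 0) ^ 2 ≤ (Λ ^ m) ^ 2 * ∑' x, ψ x ^ 2 := by
    refine le_trans (le_of_eq (tsum_congr fun a => ?_)) (KK_left hΛ m ψ)
    congr 1
    rw [ENNReal.tsum_prod']
    refine tsum_congr fun x => ?_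
    rw [KK_eq, ← ENNReal.tsum_mul_left]
    refine tsum_congr fun b => ?_
    simp only [he1, hw1]
    split_ifs <;> simp
  have hR : ∑' c, (∑' r, w3 c r) ^ 2 ≤ (Λ ^ n) ^ 2 * ∑' x, ψ x ^ 2 := by
    refine le_trans (le_of_eq (tsum_congr fun c => ?_)) (KK_right hΛ n ψ)
    congr 1
    simp only [hw3]
    rw [R08_fib (fun b : Fin n → Γ => pth c b n) (fun b => sw (ker f) c b) ψ]
    refine tsum_congr fun z => ?_
    rw [KK_eq]
  calc _ ≤ (∑' V : 𝒱, ∑' a, ∑' c,
        (∑' p, if y1 p ∈ (V : Set X) then (if e1 p = a then w1 p else 0) else 0)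
          * R08_M S o f m k I2 V a c
          * (∑' r, if y3 c r ∈ (V : Set X) then w3 c r else 0)) ^ 2 := by
        gcongr
    _ ≤ ((S.μ : ℝ≥0∞) ^ 2 * (C * (Λ ^ k * N2 ^ (1 / 2 : ℝ)))) ^ 2
        * ((∑' a, (∑' p, if e1 p = a then w1 p else 0) ^ 2) * ∑' c, (∑' r, w3 c r) ^ 2) := hdec
    _ ≤ ((S.μ : ℝ≥0∞) ^ 2 * (C * (Λ ^ k * N2 ^ (1 / 2 : ℝ)))) ^ 2
        * (((Λ ^ m) ^ 2 * ∑' x, ψ x ^ 2) * ((Λ ^ n) ^ 2 * ∑' x, ψ x ^ 2)) := by
        gcongr
    _ = _ := by
        have h6 : (N2 ^ (1 / 2 : ℝ)) ^ 2 = N2 := R4_rt N2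
        calc _ = ((S.μ : ℝ≥0∞) ^ 2 * C * Λ ^ (m + k + n)) ^ 2 * (N2 ^ (1 / 2 : ℝ)) ^ 2
              * (∑' x, ψ x ^ 2) ^ 2 := by ring
          _ = _ := by rw [h6]

end RapidDecay
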