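import Pool.Agent.Lib.MP_fee02f_an.RR.R05
import Pool.Agent.Lib.MP_fee02f_an.RR.R06
import Pool.Agent.Lib.MP_fee02f_an.RR.R08

/-!
One localised function: the main inequality.

`V` is a cell, `ψ` is supported on `{u | u • o ∈ V}`. Apply `KK_pow` (with `2 * J` in place of `J`,
`2 ^ (2 J) = 4 ^ J`) to `F_V u v = [u • o ∈ V][v • o ∈ V] ker f u v`, which has the same form at `ψ`, and
`form_eq`: for every path of nonzero weight all vertices `pth x b i • o`, `i ≤ 4 ^ J`, lie in `V`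
(`sw_ne_zero`; `i = 0`: `ψ x ≠ 0`), so by `hb`, `hmono` and `windows` (`M = 1`, `8 / J ≤ η`; apply it to
`Φ I = w (points) I` for the sequence `i ↦ pth x b i • o`, modified outside `[0, 4 ^ J]` to be constant) there
are `j < J`, `t < 4 ^ J` such that the three windows have `d(hl I_i, hl I) ≤ ρ / 2` (`hclose`), hence
pairwise distance at most `ρ`. So the form of `KK F_V (4 ^ J)` at `ψ` is at most the sum over
`(j, t) ∈ range J × range (4 ^ J)` (with `(4 t + 4) 4^j ≤ 4^J`) of the left hand sides of `three`,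
`m = (4 t + 1) 4^j`, `k + 1 = 4^j`, `n = 4^J - m - 4^j` (the equation `4^J = m + ((k+1) + n)`: state a lemma
for a path length `N` with `hN : N = m + ((k+1) + n)` and `subst`).
-/

open scoped ENNReal

namespace RapidDecay

variable {Γ X : Type*} [Group Γ] [MulAction Γ X]

theorem r09_le_of_sq {a b : ℝ≥0∞} (h : a ^ 2 ≤ b ^ 2) : a ≤ b :=
  (ENNReal.pow_le_pow_left_iff two_ne_zero).1 h

open Classical in
/-- the paths with three close windows, for a path length given by an equation -/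
theorem r09_three (S : HullSpace Γ X) (o : X) (f : Γ → ℝ≥0∞) (ρ : ℝ) (hρ : 1 ≤ ρ)
    (C Λ : ℝ≥0∞) (hC : LB S (2 * (S.C * ρ)) C) (hΛ : OpLe (ker f) Λ) (hf2 : ∑' g, f g ^ 2 ≤ 4)
    (ψ : Γ → ℝ≥0∞) (N m k n : ℕ) (hN : N = m + ((k + 1) + n)) (I1 I2 I3 : Finset ℕ)
    (hn1 : I1.Nonempty) (hn2 : I2.Nonempty) (hn3 : I3.Nonempty)
    (hI1 : I1 ⊆ Finset.Icc 0 m) (hI2 : I2 ⊆ Finset.Icc m (m + (k + 1)))
    (hI3 : I3 ⊆ Finset.Icc (m + (k + 1)) (m + ((k + 1) + n))) :
    (∑' x : Γ, ∑' b : Fin N → Γ,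
      if S.d (S.hl (fun i => pth x b i • o) I1) (S.hl (fun i => pth x b i • o) I2) ≤ ρ ∧
          S.d (S.hl (fun i => pth x b i • o) I2) (S.hl (fun i => pth x b i • o) I3) ≤ ρ
        then ψ x * sw (ker f) x b * ψ (pth x b N) else 0)
      ≤ ((S.μ : ℝ≥0∞) ^ 2 * C * Λ ^ (N - 1) * 2) * ∑' x, ψ x ^ 2 := by
  subst hN
  obtain ⟨𝒱, h3, h1, h2⟩ := S.cov ρ hρ
  have h := three S o f ρ (S.C * ρ) 𝒱 h1 h2 h3 C Λ hC hΛ ψ m k n I1 I2 I3 hn1 hn2 hn3 hI1 hI2 hI3
  apply r09_le_of_sq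
  refine le_trans h ?_
  have e : m + (k + 1 + n) - 1 = m + k + n := by omega
  rw [e]
  calc ((S.μ : ℝ≥0∞) ^ 2 * C * Λ ^ (m + k + n)) ^ 2 * (∑' g, f g ^ 2) * (∑' x, ψ x ^ 2) ^ 2
      ≤ ((S.μ : ℝ≥0∞) ^ 2 * C * Λ ^ (m + k + n)) ^ 2 * 4 * (∑' x, ψ x ^ 2) ^ 2 :=
        mul_le_mul_left (mul_le_mul_right hf2 _) _
    _ = _ := by ring

theorem main_ineq (S : HullSpace Γ X) (o : X) (f : Γ → ℝ≥0∞) (hsym : ∀ g, f g⁻¹ = f g)
    (V : Set X) (ψ : Γ → ℝ≥0∞) (hψ : ∀ u, ψ u ≠ 0 → u • o ∈ V)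
    (w : (ℕ → X) → Finset ℕ → ℝ) (a η : ℝ) (J : ℕ) (hJ : 1 ≤ J) (hJη : 8 / (J : ℝ) ≤ η)
    (hmono : ∀ (u : ℕ → X) (I I' : Finset ℕ), I'.Nonempty → I' ⊆ I → w u I' ≤ w u I)
    (hb : ∀ (u : ℕ → X) (I : Finset ℕ), I.Nonempty → (∀ i ∈ I, u i ∈ V) → |w u I - a| ≤ 1)
    (ρ : ℝ) (hρ : 1 ≤ ρ)
    (hclose : ∀ (u : ℕ → X) (I I' : Finset ℕ), I'.Nonempty → I' ⊆ I → (∀ i ∈ I, u i ∈ V) →
      w u I - w u I' ≤ η → S.d (S.hl u I') (S.hl u I) ≤ ρ / 2)
    (C Λ : ℝ≥0∞) (hC : LB S (2 * (S.C * ρ)) C) (hΛ : OpLe (ker f) Λ) (hΛ0 : Λ ≠ ∞)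
    (hf2 : ∑' g, f g ^ 2 ≤ 4) :
    (∑' x, ∑' y, ψ x * ker f x y * ψ y) ^ (4 ^ J)
      ≤ (J * 4 ^ J * (S.μ : ℝ≥0∞) ^ 2 * C * Λ ^ (4 ^ J - 1) * 2)
        * (∑' x, ψ x ^ 2) ^ (4 ^ J) := by
  classical
  set N := 4 ^ J with hNdef
  have hNpow : N = 2 ^ (2 * J) := by rw [hNdef, pow_mul]; norm_num
  have hN0 : 0 < N := by rw [hNdef]; positivity
  let FV : Γ → Γ → ℝ≥0∞ := fun u v => if u • o ∈ V ∧ v • o ∈ V then ker f u v else 0
  have hksym : ∀ x y, ker f x y = ker f y x := by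
    intro x y
    show f (x⁻¹ * y) = f (y⁻¹ * x)
    rw [← hsym (x⁻¹ * y)]
    congr 1
    group
  have hFsym : ∀ x y, FV x y = FV y x := by
    intro x y
    show (if x • o ∈ V ∧ y • o ∈ V then ker f x y else 0) =
      (if y • o ∈ V ∧ x • o ∈ V then ker f y x else 0)
    rw [hksym x y]
    by_cases h1 : x • o ∈ V <;> by_cases h2 : y • o ∈ V <;> simp [h1, h2]
  have hFle : ∀ x y, FV x y ≤ ker f x y := by
    intro x y
    show (if x • o ∈ V ∧ y • o ∈ V then ker f x y else 0) ≤ _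
    split_ifs
    · exact le_refl _
    · exact bot_le
  have hform : ∑' x, ∑' y, ψ x * ker f x y * ψ y = ∑' x, ∑' y, ψ x * FV x y * ψ y := by
    refine tsum_congr fun x => tsum_congr fun y => ?_
    by_cases hx : ψ x = 0
    · simp [hx]
    · by_cases hy : ψ y = 0
      · simp [hy]
      · show _ = ψ x * (if x • o ∈ V ∧ y • o ∈ V then ker f x y else 0) * ψ y
        rw [if_pos ⟨hψ x hx, hψ y hy⟩]
  -- the three close windows
  let Q : ℕ → ℕ → (x : Γ) → (b : Fin N → Γ) → Prop := fun j t x b =>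
    S.d (S.hl (fun i => pth x b i • o) (Finset.Icc ((4 * t + 0) * 4 ^ j) ((4 * t + 0 + 1) * 4 ^ j)))
      (S.hl (fun i => pth x b i • o) (Finset.Icc ((4 * t + 1) * 4 ^ j) ((4 * t + 1 + 1) * 4 ^ j)))
      ≤ ρ ∧
    S.d (S.hl (fun i => pth x b i • o) (Finset.Icc ((4 * t + 1) * 4 ^ j) ((4 * t + 1 + 1) * 4 ^ j)))
      (S.hl (fun i => pth x b i • o) (Finset.Icc ((4 * t + 2) * 4 ^ j) ((4 * t + 2 + 1) * 4 ^ j)))
      ≤ ρ
  let G : ℕ → ℕ → (x : Γ) → (b : Fin N → Γ) → ℝ≥0∞ := fun j t x b =>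
    if (4 * t + 4) * 4 ^ j ≤ N then
      (if Q j t x b then ψ x * sw (ker f) x b * ψ (pth x b N) else 0) else 0
  have hpoint : ∀ (x : Γ) (b : Fin N → Γ), ψ x * sw FV x b * ψ (pth x b N) ≤
      ∑ j ∈ Finset.range J, ∑ t ∈ Finset.range N, G j t x b := by
    intro x b
    by_cases hx : ψ x = 0
    · simp [hx]
    by_cases hs : sw FV x b = 0
    · simp [hs]
    have hFne : ∀ p q, FV p q ≠ 0 → p • o ∈ V ∧ q • o ∈ V := by
      intro p q hpq
      by_contra hcon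
      exact hpq (if_neg hcon)
    have hvert : ∀ i, pth x b i • o ∈ V := by
      intro i
      by_cases hi : 1 ≤ i ∧ i ≤ N
      · have h1 := sw_ne_zero hs (i - 1) (by omega)
        have h2 := (hFne _ _ h1).2
        rwa [Nat.sub_add_cancel hi.1] at h2
      · have h1 : pth x b i = x := by
          unfold pth
          rw [dif_neg hi]
        rw [h1]
        exact hψ x hx
    obtain ⟨j, t, hj, hjt, hw⟩ := windows J hJ (w (fun i => pth x b i • o)) a 1
      (fun I I' hI' hII' => hmono _ I I' hI' hII')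
      (fun I hI _ => hb _ I hI (fun i _ => hvert i))
    have ht : t < N := by
      have h1 : 1 ≤ 4 ^ j := Nat.one_le_pow _ _ (by norm_num)
      have h2 : (4 * t + 4) * 1 ≤ (4 * t + 4) * 4 ^ j := Nat.mul_le_mul_left _ h1
      omega
    have hd : ∀ i < 3, S.d (S.hl (fun i => pth x b i • o)
        (Finset.Icc ((4 * t + i) * 4 ^ j) ((4 * t + i + 1) * 4 ^ j)))
        (S.hl (fun i => pth x b i • o) (Finset.Icc (4 * t * 4 ^ j) ((4 * t + 4) * 4 ^ j)))
        ≤ ρ / 2 := by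
      intro i hi
      refine hclose _ _ _ ?_ ?_ (fun i _ => hvert i) ?_
      · rw [Finset.nonempty_Icc]
        exact Nat.mul_le_mul_right _ (by omega)
      · apply Finset.Icc_subset_Icc
        · exact Nat.mul_le_mul_right _ (by omega)
        · exact Nat.mul_le_mul_right _ (by omega)
      · have h1 := hw i hi
        rw [mul_one] at h1
        exact le_trans h1 hJη
    have hQ : Q j t x b := by
      have h0 := hd 0 (by norm_num)
      have h1 := hd 1 (by norm_num)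
      have h2 := hd 2 (by norm_num)
      rw [S.d_comm] at h1
      have h1' := hd 1 (by norm_num)
      rw [S.d_comm] at h2
      exact ⟨by linarith [S.d_tri _ _ _ |>.trans (add_le_add h0 h1)],
        by linarith [S.d_tri _ _ _ |>.trans (add_le_add h1' h2)]⟩
    have hG : ψ x * sw FV x b * ψ (pth x b N) ≤ G j t x b := by
      show _ ≤ (if (4 * t + 4) * 4 ^ j ≤ N then
        (if Q j t x b then ψ x * sw (ker f) x b * ψ (pth x b N) else 0) else 0)
      rw [if_pos hjt, if_pos hQ]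
      exact mul_le_mul_left (mul_le_mul_right (sw_mono hFle x b) _) _
    refine le_trans hG (le_trans ?_
      (Finset.single_le_sum (f := fun j => ∑ t ∈ Finset.range N, G j t x b)
        (fun _ _ => bot_le) (Finset.mem_range.2 hj)))
    exact Finset.single_le_sum (f := fun t => G j t x b) (fun _ _ => bot_le)
      (Finset.mem_range.2 ht)
  have hGsum : ∀ j t, ∑' x, ∑' b, G j t x b ≤
      ((S.μ : ℝ≥0∞) ^ 2 * C * Λ ^ (N - 1) * 2) * ∑' x, ψ x ^ 2 := by
    intro j t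
    by_cases hjt : (4 * t + 4) * 4 ^ j ≤ N
    · have h1 : 1 ≤ 4 ^ j := Nat.one_le_pow _ _ (by norm_num)
      have h2 : (4 * t + 1) * 4 ^ j + 4 ^ j + 4 ^ j + 4 ^ j = (4 * t + 4) * 4 ^ j := by ring
      have hN : N = (4 * t + 1) * 4 ^ j + ((4 ^ j - 1 + 1) +
          (N - (4 * t + 1) * 4 ^ j - 4 ^ j)) := by omega
      have h3 := r09_three S o f ρ hρ C Λ hC hΛ hf2 ψ N ((4 * t + 1) * 4 ^ j) (4 ^ j - 1)
        (N - (4 * t + 1) * 4 ^ j - 4 ^ j) hN
        (Finset.Icc ((4 * t + 0) * 4 ^ j) ((4 * t + 0 + 1) * 4 ^ j))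
        (Finset.Icc ((4 * t + 1) * 4 ^ j) ((4 * t + 1 + 1) * 4 ^ j))
        (Finset.Icc ((4 * t + 2) * 4 ^ j) ((4 * t + 2 + 1) * 4 ^ j))
        (Finset.nonempty_Icc.2 (Nat.mul_le_mul_right _ (by omega)))
        (Finset.nonempty_Icc.2 (Nat.mul_le_mul_right _ (by omega)))
        (Finset.nonempty_Icc.2 (Nat.mul_le_mul_right _ (by omega)))
        (by
          apply Finset.Icc_subset_Icc
          · exact Nat.zero_le _
          · exact le_of_eq (by ring))
        (by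
          have e1 : (4 * t + 1 + 1) * 4 ^ j = (4 * t + 1) * 4 ^ j + 4 ^ j := by ring
          apply Finset.Icc_subset_Icc (le_refl _)
          omega)
        (by
          have e1 : (4 * t + 2) * 4 ^ j = (4 * t + 1) * 4 ^ j + 4 ^ j := by ring
          have e2 : (4 * t + 2 + 1) * 4 ^ j = (4 * t + 1) * 4 ^ j + 4 ^ j + 4 ^ j := by ring
          apply Finset.Icc_subset_Icc
          · omega
          · omega)
      refine le_trans (le_of_eq ?_) h3
      refine tsum_congr fun x => tsum_congr fun b => ?_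
      show (if (4 * t + 4) * 4 ^ j ≤ N then
        (if Q j t x b then ψ x * sw (ker f) x b * ψ (pth x b N) else 0) else 0) = _
      rw [if_pos hjt]
    · have h1 : ∀ x b, G j t x b = 0 := fun x b => if_neg hjt
      simp [h1]
  have hmain : ∑' x, ∑' y, ψ x * KK FV N x y * ψ y ≤
      (J * N : ℝ≥0∞) * (((S.μ : ℝ≥0∞) ^ 2 * C * Λ ^ (N - 1) * 2) * ∑' x, ψ x ^ 2) := by
    rw [form_eq]
    refine le_trans (ENNReal.tsum_le_tsum fun x => ENNReal.tsum_le_tsum fun b => hpoint x b) ?_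
    have e1 : ∑' x, ∑' b : Fin N → Γ, ∑ j ∈ Finset.range J, ∑ t ∈ Finset.range N, G j t x b =
        ∑ j ∈ Finset.range J, ∑ t ∈ Finset.range N, ∑' x, ∑' b, G j t x b := by
      have e2 : ∀ x, ∑' b : Fin N → Γ, ∑ j ∈ Finset.range J, ∑ t ∈ Finset.range N, G j t x b =
          ∑ j ∈ Finset.range J, ∑ t ∈ Finset.range N, ∑' b, G j t x b := by
        intro x
        rw [Summable.tsum_finsetSum (fun _ _ => ENNReal.summable)]
        refine Finset.sum_congr rfl fun j _ => ?_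
        rw [Summable.tsum_finsetSum (fun _ _ => ENNReal.summable)]
      simp only [e2]
      rw [Summable.tsum_finsetSum (fun _ _ => ENNReal.summable)]
      refine Finset.sum_congr rfl fun j _ => ?_
      rw [Summable.tsum_finsetSum (fun _ _ => ENNReal.summable)]
    rw [e1]
    refine le_trans (Finset.sum_le_sum fun j _ => Finset.sum_le_sum fun t _ => hGsum j t) ?_
    rw [Finset.sum_const, Finset.sum_const, Finset.card_range, Finset.card_range, nsmul_eq_mul,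
      nsmul_eq_mul, ← mul_assoc]
  have hpow := KK_pow hFsym ψ (2 * J)
  rw [← hNpow] at hpow
  rw [hform]
  refine le_trans hpow (le_trans (mul_le_mul_left hmain _) (le_of_eq ?_))
  have e3 : (∑' x, ψ x ^ 2) ^ N = (∑' x, ψ x ^ 2) * (∑' x, ψ x ^ 2) ^ (N - 1) := by
    rw [← pow_succ']
    congr 1
    omega
  rw [e3, hNdef]
  push_cast
  ring

end RapidDecay
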