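import Pool.Agent.Lib.MP_fee02f_an.RR.R09

/-!
The recursion and its solution.

`base`: `f ≤ 1` has at most `b` nonzero values, so `OpLe (ker f) b`
(`(∑∑ φ F ψ)² ≤ (∑∑ φ² F) (∑∑ F ψ²)`).

`halving`: take `θ = 1 / (16 C)`, `η`, `K` from `close` (w.l.o.g. `K ≥ 1`), `J ≥ 8 / η`, `J ≥ 1`,
`R₀ = 16 C K + 1`, `ρ = 2 (θ R + K) ≥ 1`; then `2 C ρ = R / 4 + 4 C K ≤ R / 2`. Use `cov` at scale `R` for
`localise'` and `bdd`, `close` at scale `R` with `z` = a point of `V` for `main_ineq` (`w = S.v R`; if `V` is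
empty then `ψ = 0`). Let `f` be given, `f' g = f g + f g⁻¹` (`∑ f'² ≤ 4`,
`ker f ≤ ker f'`, `f' g ≠ 0 → d (g • o) o ≤ R`), `Λ` the infimum of the constants of `ker f'` (finite by
`base`; `OpLe.sInf`). If `Λ = 0` done. Otherwise `¬ OpLe (ker f') (Λ / 2)`; `localise'` gives `V`, `ψ`
with `Λ / (4 μ) * ∑ ψ² < ∑∑ ψ ker f' ψ`, and `main_ineq` gives
`(Λ / (4 μ)) ^ N ≤ J 4^J μ² C' Λ ^ (N - 1) 2`, `N = 4^J`, so `Λ ≤ (4 μ)^N J 4^J μ² 2 C' =: A C'`.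
-/

open scoped ENNReal

namespace RapidDecay

variable {Γ X : Type*} [Group Γ] [MulAction Γ X]

theorem R10_supp (f : Γ → ℝ≥0∞) (E : Set Γ) (b : ℕ) (hE : E.encard ≤ b)
    (hf : ∀ g, f g ≠ 0 → g ∈ E) (h1 : ∀ g, f g ≤ 1) : ∑' g, f g ≤ b := by
  have h2 : ∑' g, f g ≤ ∑' g, E.indicator (fun _ => (1 : ℝ≥0∞)) g := by
    refine ENNReal.tsum_le_tsum fun g => ?_
    by_cases hg : g ∈ E
    · rw [Set.indicator_of_mem hg]
      exact h1 g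
    · have h3 : f g = 0 := by
        by_contra h
        exact hg (hf g h)
      rw [h3]
      exact zero_le
  have h4 : ∑' g, E.indicator (fun _ => (1 : ℝ≥0∞)) g = E.encard := by
    rw [← tsum_subtype, ENNReal.tsum_set_one]
  rw [h4] at h2
  refine h2.trans ?_
  exact_mod_cast hE

theorem base (S : HullSpace Γ X) (hU : UDisc' S) (R : ℝ) : ∃ b : ℕ, LB S R b := by
  obtain ⟨b, hb⟩ := hU R
  refine ⟨b, fun o f hf hf1 φ ψ => ?_⟩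
  have h1 : ∀ g, f g ≤ 1 := by
    intro g
    by_contra hcon
    push Not at hcon
    have h2 : (1 : ℝ≥0∞) < f g ^ 2 := one_lt_pow₀ hcon (by norm_num)
    exact absurd ((ENNReal.le_tsum g).trans hf1) (not_le.2 h2)
  have hs : ∑' g, f g ≤ b :=
    R10_supp f {g | S.d (g • o) o ≤ R} b (hb o) (fun g hg => hf g hg) h1
  have hr : ∀ x, ∑' y, ker f x y ≤ b := by
    intro x
    have h2 : ∑' y, ker f x y = ∑' g, f g := (Equiv.mulLeft x⁻¹).tsum_eq f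
    rw [h2]
    exact hs
  have hc : ∀ y, ∑' x, ker f x y ≤ b := by
    intro y
    have h2 : ∑' x, ker f x y = ∑' g, f g := ((Equiv.inv Γ).trans (Equiv.mulRight y)).tsum_eq f
    rw [h2]
    exact hs
  have hcs := cs_sq (I := Γ × Γ) (fun p => φ p.1 * ker f p.1 p.2 * ψ p.2)
    (fun p => φ p.1 ^ 2 * ker f p.1 p.2) (fun p => ker f p.1 p.2 * ψ p.2 ^ 2)
    (fun p => le_of_eq (by ring))
  have e1 : ∑' p : Γ × Γ, φ p.1 * ker f p.1 p.2 * ψ p.2 =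
      ∑' x, ∑' y, φ x * ker f x y * ψ y :=
    ENNReal.tsum_prod (f := fun x y => φ x * ker f x y * ψ y)
  have e2 : ∑' p : Γ × Γ, φ p.1 ^ 2 * ker f p.1 p.2 ≤ b * ∑' x, φ x ^ 2 := by
    rw [ENNReal.tsum_prod (f := fun x y => φ x ^ 2 * ker f x y), ← ENNReal.tsum_mul_left]
    refine ENNReal.tsum_le_tsum fun x => ?_
    rw [ENNReal.tsum_mul_left, mul_comm (b : ℝ≥0∞)]
    exact mul_le_mul' le_rfl (hr x)
  have e3 : ∑' p : Γ × Γ, ker f p.1 p.2 * ψ p.2 ^ 2 ≤ b * ∑' y, ψ y ^ 2 := by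
    rw [ENNReal.tsum_prod (f := fun x y => ker f x y * ψ y ^ 2), ENNReal.tsum_comm,
      ← ENNReal.tsum_mul_left]
    refine ENNReal.tsum_le_tsum fun y => ?_
    rw [ENNReal.tsum_mul_right]
    exact mul_le_mul' (hc y) le_rfl
  rw [e1] at hcs
  refine hcs.trans ((mul_le_mul' e2 e3).trans (le_of_eq ?_))
  ring

theorem R10_sq (a b : ℝ≥0∞) : (a + b) ^ 2 ≤ 2 * a ^ 2 + 2 * b ^ 2 := by
  rcases eq_or_ne a ∞ with ha | ha
  · rw [ha]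
    simp
  rcases eq_or_ne b ∞ with hb | hb
  · rw [hb]
    simp
  lift a to NNReal using ha
  lift b to NNReal using hb
  have h : (a + b) ^ 2 ≤ 2 * a ^ 2 + 2 * b ^ 2 := by
    rw [← NNReal.coe_le_coe]
    push_cast
    nlinarith [sq_nonneg ((a : ℝ) - b)]
  exact_mod_cast h

theorem halving (S : HullSpace Γ X) (hU : UDisc' S) :
    ∃ (A : ℝ≥0∞) (R₀ : ℝ), A ≠ ∞ ∧ 1 ≤ R₀ ∧ ∀ R : ℝ, R₀ ≤ R → ∀ C : ℝ≥0∞,
      LB S (R / 2) C → LB S R (A * C) := by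
  have hS1 := S.one_le
  have hS0 : 0 < S.C := by linarith
  obtain ⟨η, K, hη, hcl⟩ := S.close (1 / (16 * S.C)) (by positivity)
  obtain ⟨K', hK'⟩ : ∃ K' : ℝ, K' = max K 1 := ⟨_, rfl⟩
  have hK1 : 1 ≤ K' := by
    rw [hK']
    exact le_max_right _ _
  have hKK : K ≤ K' := by
    rw [hK']
    exact le_max_left _ _
  obtain ⟨J, hJ⟩ : ∃ J : ℕ, J = ⌈8 / η⌉₊ + 1 := ⟨_, rfl⟩
  have hJ1 : 1 ≤ J := by omega
  have hJ0 : (0 : ℝ) < J := by exact_mod_cast hJ1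
  have hJη : 8 / (J : ℝ) ≤ η := by
    rw [div_le_iff₀ hJ0]
    have h1 : 8 / η ≤ (J : ℝ) := by
      rw [hJ]
      push_cast
      have := Nat.le_ceil (8 / η)
      linarith
    rw [div_le_iff₀ hη] at h1
    linarith
  refine ⟨((J * 4 ^ J * S.μ ^ 2 * 2 * (2 * S.μ * 2) ^ (4 ^ J) : ℕ) : ℝ≥0∞), 16 * S.C * K' + 1,
    ENNReal.natCast_ne_top _, ?_, ?_⟩
  · have : 0 ≤ 16 * S.C * K' := by positivity
    linarith
  intro R hR C hC o f hf hf1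
  have hR1 : 1 ≤ R := by
    have : 0 ≤ 16 * S.C * K' := by positivity
    linarith
  obtain ⟨ρ, hρd⟩ : ∃ ρ : ℝ, ρ = 2 * (1 / (16 * S.C) * R + K') := ⟨_, rfl⟩
  have hθR : 0 ≤ 1 / (16 * S.C) * R := by positivity
  have hρ1 : 1 ≤ ρ := by
    rw [hρd]
    linarith
  have hρR : 2 * (S.C * ρ) ≤ R / 2 := by
    have h1 : 2 * (S.C * ρ) = R / 4 + 4 * S.C * K' := by
      rw [hρd]
      field_simp
      ring
    rw [h1]
    linarith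
  obtain ⟨𝒱, hdiam, hcov, hmult⟩ := S.cov R hR1
  obtain ⟨f', hf'⟩ : ∃ f' : Γ → ℝ≥0∞, f' = fun g => f g + f g⁻¹ := ⟨_, rfl⟩
  have hsym : ∀ g, f' g⁻¹ = f' g := by
    intro g
    rw [hf']
    show f g⁻¹ + f g⁻¹⁻¹ = f g + f g⁻¹
    rw [inv_inv, add_comm]
  have hf'R : ∀ g, f' g ≠ 0 → S.d (g • o) o ≤ R := by
    intro g hg
    by_cases h0 : f g = 0
    · have h1 : f g⁻¹ ≠ 0 := by
        intro h2
        apply hg
        rw [hf']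
        show f g + f g⁻¹ = 0
        rw [h0, h2, add_zero]
      have h3 := hf g⁻¹ h1
      rw [← S.d_smul g, smul_inv_smul, S.d_comm] at h3
      exact h3
    · exact hf g h0
  have hf'2 : ∑' g, f' g ^ 2 ≤ 4 := by
    have h1 : ∑' g, f' g ^ 2 ≤ ∑' g, (2 * f g ^ 2 + 2 * f g⁻¹ ^ 2) := by
      refine ENNReal.tsum_le_tsum fun g => ?_
      rw [hf']
      exact R10_sq _ _
    have h2 : ∑' g, f g⁻¹ ^ 2 = ∑' g, f g ^ 2 := (Equiv.inv Γ).tsum_eq (fun g => f g ^ 2)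
    rw [ENNReal.tsum_add, ENNReal.tsum_mul_left, ENNReal.tsum_mul_left, h2] at h1
    refine h1.trans ?_
    calc 2 * ∑' g, f g ^ 2 + 2 * ∑' g, f g ^ 2 ≤ 2 * 1 + 2 * 1 :=
          add_le_add (mul_le_mul' le_rfl hf1) (mul_le_mul' le_rfl hf1)
      _ = 4 := by norm_num
  have hf'4 : ∑' g, f' g ^ 2 ≠ ∞ := ne_top_of_le_ne_top (by norm_num) hf'2
  have hle : ∀ x y, ker f x y ≤ ker f' x y := by
    intro x y
    rw [hf']
    exact le_self_add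
  obtain ⟨b, hb⟩ := base S hU R
  have hfin : OpLe (ker f') (2 * b) := by
    intro φ ψ
    refine (hb.form o f' hf'R hf'4 φ ψ).trans ?_
    refine mul_le_mul' ?_ le_rfl
    calc (b : ℝ≥0∞) ^ 2 * ∑' g, f' g ^ 2 ≤ (b : ℝ≥0∞) ^ 2 * 4 := mul_le_mul' le_rfl hf'2
      _ = (2 * b) ^ 2 := by ring
  have hbt : (2 * (b : ℝ≥0∞)) ≠ ∞ := ENNReal.mul_ne_top (by norm_num) (ENNReal.natCast_ne_top b)
  obtain ⟨Λ, hΛd⟩ : ∃ Λ : ℝ≥0∞, Λ = sInf {C | OpLe (ker f') C} := ⟨_, rfl⟩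
  have hΛ : OpLe (ker f') Λ := by
    rw [hΛd]
    exact OpLe.sInf ⟨_, hbt, hfin⟩
  have hΛt : Λ ≠ ∞ := by
    refine ne_top_of_le_ne_top hbt ?_
    rw [hΛd]
    exact sInf_le hfin
  rcases eq_or_ne Λ 0 with hΛ0 | hΛ0
  · rw [hΛ0] at hΛ
    exact hΛ.mono hle zero_le
  have hnot : ¬ OpLe (ker f') (Λ / 2) := by
    intro hcon
    have h1 : Λ ≤ Λ / 2 := by
      have h2 : sInf {C | OpLe (ker f') C} ≤ Λ / 2 := sInf_le hcon
      rw [← hΛd] at h2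
      exact h2
    exact absurd h1 (not_le.2 (ENNReal.half_lt_self hΛ0 hΛt))
  have hΛ2 : Λ / 2 ≠ ∞ := (ENNReal.div_lt_top hΛt (by norm_num)).ne
  obtain ⟨V, hV, ψ, hψV, hψ0, hψt, hψ⟩ := localise' S R 𝒱 hcov hmult o f' hsym hf'R (Λ / 2) hΛ2 hnot
  obtain ⟨u0, hu0⟩ : ∃ u, ψ u ≠ 0 := by
    by_contra hcon
    push Not at hcon
    apply hψ0
    rw [ENNReal.tsum_eq_zero]
    intro u
    rw [hcon u]
    norm_num
  have hz : u0 • o ∈ V := hψV u0 hu0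
  have hμ : S.μ ≠ 0 := by
    intro h0
    have h1 := hmult (u0 • o)
    rw [h0] at h1
    have h2 : {W ∈ 𝒱 | u0 • o ∈ W} = ∅ := by
      rw [← Set.encard_eq_zero]
      exact le_antisymm (by exact_mod_cast h1) zero_le
    have h3 : V ∈ {W ∈ 𝒱 | u0 • o ∈ W} := ⟨hV, hz⟩
    rw [h2] at h3
    exact h3
  obtain ⟨a, ha⟩ := S.bdd R hR1 (u0 • o)
  have hmain := main_ineq S o f' hsym V ψ hψV (S.v R) a η J hJ1 hJη (fun u I I' => S.mono R u I I')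
    (fun u I hI hIV => ha u I hI (fun i hi => hdiam V hV _ (hIV i hi) _ hz)) ρ hρ1
    (fun u I I' hI' hsub hIV hw => by
      have h1 := hcl R hR1 u I I' (u0 • o) hI' hsub
        (fun i hi => hdiam V hV _ (hIV i hi) _ hz) hw
      have h2 : ρ / 2 = 1 / (16 * S.C) * R + K' := by
        rw [hρd]
        ring
      rw [h2]
      linarith) C Λ (hC.mono hρR le_rfl) hΛ hΛt hf'2
  obtain ⟨q, hq⟩ : ∃ q : ℝ≥0∞, q = ∑' u, ψ u ^ 2 := ⟨_, rfl⟩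
  rw [← hq] at hψ hψ0 hψt hmain
  obtain ⟨N, hN⟩ : ∃ N : ℕ, 4 ^ J = N + 1 := ⟨4 ^ J - 1, by
    have : 0 < 4 ^ J := by positivity
    omega⟩
  rw [hN, Nat.add_sub_cancel] at hmain
  rw [hN]
  have h2μ0 : (2 * (S.μ : ℝ≥0∞)) ≠ 0 := mul_ne_zero (by norm_num) (by exact_mod_cast hμ)
  have h2μt : (2 * (S.μ : ℝ≥0∞)) ≠ ∞ :=
    ENNReal.mul_ne_top (by norm_num) (ENNReal.natCast_ne_top _)
  obtain ⟨P, hP⟩ : ∃ P : ℝ≥0∞, P = Λ / 2 / (2 * S.μ) := ⟨_, rfl⟩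
  rw [← hP] at hψ
  have hΛP : Λ = P * (2 * S.μ * 2) := by
    rw [← mul_assoc, hP, ENNReal.div_mul_cancel h2μ0 h2μt, ENNReal.div_mul_cancel (by norm_num)
      (by norm_num)]
  have h1 : (P * q) ^ (N + 1) ≤
      (J * ((N + 1 : ℕ) : ℝ≥0∞) * (S.μ : ℝ≥0∞) ^ 2 * C * Λ ^ N * 2) * q ^ (N + 1) := by
    refine (pow_le_pow_left' hψ.le _).trans (hmain.trans (le_of_eq ?_))
    have h4 : (4 : ℝ≥0∞) ^ J = ((N + 1 : ℕ) : ℝ≥0∞) := by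
      rw [← hN]
      push_cast
      rfl
    rw [h4]
  rw [mul_pow] at h1
  have hqN0 : q ^ (N + 1) ≠ 0 := pow_ne_zero _ hψ0
  have hqNt : q ^ (N + 1) ≠ ∞ := ENNReal.pow_ne_top hψt
  have h2 : P ^ (N + 1) ≤ J * ((N + 1 : ℕ) : ℝ≥0∞) * (S.μ : ℝ≥0∞) ^ 2 * C * Λ ^ N * 2 :=
    (ENNReal.mul_le_mul_iff_left hqN0 hqNt).1 h1
  have h3 : Λ ^ N * Λ ≤ Λ ^ N *
      (((J * (N + 1) * S.μ ^ 2 * 2 * (2 * S.μ * 2) ^ (N + 1) : ℕ) : ℝ≥0∞) * C) := by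
    calc Λ ^ N * Λ = (P * (2 * S.μ * 2)) ^ (N + 1) := by
          rw [← hΛP, pow_succ]
      _ = P ^ (N + 1) * (2 * S.μ * 2) ^ (N + 1) := mul_pow _ _ _
      _ ≤ (J * ((N + 1 : ℕ) : ℝ≥0∞) * (S.μ : ℝ≥0∞) ^ 2 * C * Λ ^ N * 2) *
          (2 * S.μ * 2) ^ (N + 1) := mul_le_mul' h2 le_rfl
      _ = _ := by
          push_cast
          ring
  have hΛN0 : Λ ^ N ≠ 0 := pow_ne_zero _ hΛ0
  have hΛNt : Λ ^ N ≠ ∞ := ENNReal.pow_ne_top hΛt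
  have h4 := (ENNReal.mul_le_mul_iff_right hΛN0 hΛNt).1 h3
  exact hΛ.mono hle h4

end RapidDecay
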