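import Pool.Agent.Lib.MP_fee02f_an.RR.R10

/-!
Solution of the recursion: for `R ≥ R₀` halve `n` times until `R / 2 ^ n ≤ R₀` (`n ≤ log R / log 2 + 1`),
where `base` applies; `A ^ n ≤ A' * R ^ (log A / log 2)` (w.l.o.g. `A ≥ 1`). For `R ≤ R₀` use `base` at `R₀`
and `LB.mono`.
-/

open scoped ENNReal

namespace RapidDecay

variable {Γ X : Type*} [Group Γ] [MulAction Γ X]

theorem R11_iter (S : HullSpace Γ X) (R₀ a b : ℝ) (ha : 1 ≤ a) (hb : 0 ≤ b)
    (h0 : LB S R₀ (ENNReal.ofReal b))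
    (hstep : ∀ R : ℝ, R₀ ≤ R → ∀ C : ℝ≥0∞, LB S (R / 2) C → LB S R (ENNReal.ofReal a * C)) :
    ∀ n : ℕ, ∀ R : ℝ, R ≤ R₀ * 2 ^ n → LB S R (ENNReal.ofReal (a ^ n * b)) := by
  intro n
  induction n with
  | zero =>
    intro R hR
    refine h0.mono (by simpa using hR) ?_
    rw [pow_zero, one_mul]
  | succ n ih =>
    intro R hR
    rcases le_or_gt R₀ R with h | h
    · have h1 := hstep R h _ (ih (R / 2) (by rw [pow_succ] at hR; linarith))
      refine h1.mono le_rfl ?_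
      rw [← ENNReal.ofReal_mul (by linarith)]
      refine ENNReal.ofReal_le_ofReal (le_of_eq ?_)
      ring
    · refine h0.mono h.le (ENNReal.ofReal_le_ofReal ?_)
      exact le_mul_of_one_le_left hb (one_le_pow₀ ha)

/-- THE RESULT of the combinatorial part: polynomial bounds -/
theorem poly (S : HullSpace Γ X) (hU : UDisc' S) :
    ∃ K D : ℝ, 0 ≤ K ∧ 0 ≤ D ∧ ∀ R : ℝ, 1 ≤ R → LB S R (ENNReal.ofReal (K * R ^ D)) := by
  obtain ⟨A, R₀, hA, hR₀, hhalf⟩ := halving S hU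
  obtain ⟨b, hb⟩ := base S hU R₀
  set a : ℝ := max A.toReal 1 with ha
  have ha1 : 1 ≤ a := le_max_right _ _
  have ha0 : 0 < a := by linarith
  have hAa : A ≤ ENNReal.ofReal a := by
    rw [← ENNReal.ofReal_toReal hA]
    exact ENNReal.ofReal_le_ofReal (le_max_left _ _)
  have hb' : LB S R₀ (ENNReal.ofReal (b : ℝ)) := by
    rw [ENNReal.ofReal_natCast]
    exact hb
  have key := R11_iter S R₀ a b ha1 (Nat.cast_nonneg b) hb'
    (fun R hR C hC => (hhalf R hR C hC).mono le_rfl (mul_le_mul' hAa le_rfl))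
  have h2 : (0 : ℝ) < Real.log 2 := Real.log_pos (by norm_num)
  refine ⟨a * b, Real.log a / Real.log 2, by positivity,
    div_nonneg (Real.log_nonneg ha1) h2.le, fun R hR => ?_⟩
  have hR0 : 0 < R := by linarith
  set n : ℕ := ⌈Real.log R / Real.log 2⌉₊ with hn
  have hlog : 0 ≤ Real.log R / Real.log 2 := div_nonneg (Real.log_nonneg hR) h2.le
  have hn1 : Real.log R / Real.log 2 ≤ n := Nat.le_ceil _
  have hn2 : (n : ℝ) < Real.log R / Real.log 2 + 1 := Nat.ceil_lt_add_one hlog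
  have h3 : R ≤ R₀ * 2 ^ n := by
    have h4 : R ≤ 2 ^ n := by
      rw [← Real.log_le_log_iff hR0 (by positivity), Real.log_pow]
      rwa [div_le_iff₀ h2] at hn1
    calc R ≤ 2 ^ n := h4
      _ = 1 * 2 ^ n := by ring
      _ ≤ R₀ * 2 ^ n := by gcongr
  refine (key n R h3).mono le_rfl (ENNReal.ofReal_le_ofReal ?_)
  have h5 : a ^ n ≤ a * R ^ (Real.log a / Real.log 2) := by
    have h6 : a ^ n ≤ a ^ (Real.log R / Real.log 2 + 1) := by
      rw [← Real.rpow_natCast]
      exact Real.rpow_le_rpow_of_exponent_le ha1 hn2.le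
    refine h6.trans (le_of_eq ?_)
    rw [Real.rpow_add ha0, Real.rpow_one, mul_comm, Real.rpow_def_of_pos ha0,
      Real.rpow_def_of_pos hR0]
    congr 2
    ring
  calc a ^ n * b ≤ a * R ^ (Real.log a / Real.log 2) * b := by gcongr
    _ = _ := by ring

end RapidDecay
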